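import Mathlib

/-!
Averages over random cuts: every port is cut independently with probability `1 / Q`.
-/

namespace Pool.Agent.LibCC88

open Finset

variable {ι : Type} [Fintype ι] [DecidableEq ι] {Q : ℕ}

/-- All values of one coordinate contribute the same amount. -/
theorem sum_eq_of_inv {F : (ι → Fin Q) → ℝ} {i : ι}
    (hF : ∀ ω k, F (Function.update ω i k) = F ω) (c c' : Fin Q) :
    ∑ ω : ι → Fin Q, (if ω i = c then F ω else 0) =
      ∑ ω : ι → Fin Q, (if ω i = c' then F ω else 0) := by
  classical
  let e : (ι → Fin Q) ≃ (ι → Fin Q) :=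
    { toFun := fun ω => Function.update ω i (Equiv.swap c c' (ω i))
      invFun := fun ω => Function.update ω i (Equiv.swap c c' (ω i))
      left_inv := fun ω => by simp
      right_inv := fun ω => by simp }
  rw [← Equiv.sum_comp e]
  apply Finset.sum_congr rfl
  intro ω _
  have h1 : e ω = Function.update ω i (Equiv.swap c c' (ω i)) := rfl
  rw [h1, hF]
  simp only [Function.update_self]
  have h2 : (Equiv.swap c c' (ω i) = c) ↔ ω i = c' := by
    constructor
    · intro h
      have := congrArg (Equiv.swap c c') h
      simpa using this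
    · intro h
      rw [h]
      simp
  simp only [h2]

/-- A function that does not depend on the coordinate `i` is cut with probability `1 / Q`. -/
theorem sum_cut {F : (ι → Fin Q) → ℝ} {i : ι} (c : Fin Q)
    (hF : ∀ ω k, F (Function.update ω i k) = F ω) :
    ∑ ω : ι → Fin Q, (if ω i = c then F ω else 0) = (∑ ω, F ω) / Q := by
  classical
  have hQ : (Q : ℝ) ≠ 0 := by
    have : 0 < Q := lt_of_le_of_lt (Nat.zero_le _) c.isLt
    exact_mod_cast this.ne'
  have h1 : ∑ ω : ι → Fin Q, F ω = ∑ c' : Fin Q, ∑ ω : ι → Fin Q, (if ω i = c' then F ω else 0) := by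
    rw [Finset.sum_comm]
    apply Finset.sum_congr rfl
    intro ω _
    simp
  rw [h1, Finset.sum_congr rfl (fun c' _ => sum_eq_of_inv hF c' c)]
  simp only [sum_const, card_univ, Fintype.card_fin, nsmul_eq_mul]
  field_simp

/-- Average of an exponential after a random cut. -/
theorem sum_cut_exp {F : (ι → Fin Q) → ℝ} {i : ι} (c : Fin Q)
    (hF : ∀ ω k, F (Function.update ω i k) = F ω) (a : ℝ) :
    ∑ ω : ι → Fin Q, (if ω i = c then a else F ω) =
      (1 - 1 / Q) * (∑ ω, F ω) + a * Fintype.card (ι → Fin Q) / Q := by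
  classical
  have h1 := sum_cut (F := F) c hF
  have h2 := sum_cut (F := fun _ => a) (i := i) c (fun _ _ => rfl)
  have h3 : ∀ ω : ι → Fin Q, (if ω i = c then a else F ω) =
      (if ω i = c then a else 0) + (F ω - (if ω i = c then F ω else 0)) := by
    intro ω
    split_ifs <;> ring
  rw [Finset.sum_congr rfl (fun ω _ => h3 ω), Finset.sum_add_distrib, Finset.sum_sub_distrib, h1, h2]
  simp only [sum_const, card_univ, nsmul_eq_mul]
  ring

end Pool.Agent.LibCC88
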