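import Pool.Agent.LibCC.Circ
import Pool.Agent.LibCC89.Word

/-!
Functions computed by levelled circuits: composition, parallel copies, formulas.
-/

namespace Pool.Agent.LibCC88

open Pool.Agent.LibCC

variable {α β γ : Type}

/-- `f` is computed on level `d` of a circuit with `W` gates per level. -/
def Comp (α : Type) {β : Type} (W d : ℕ) (f : (α → Bool) → β → Bool) : Prop :=
  ∃ (B : BCircuit α W) (o : β → Fin W), ∀ x b, B.level x d (o b) = f x b

theorem Comp.reindex {W d : ℕ} {f : (α → Bool) → β → Bool} (h : Comp α W d f) (φ : γ → β) :
    Comp α W d (fun x c => f x (φ c)) := by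
  obtain ⟨B, o, hB⟩ := h
  exact ⟨B, fun c => o (φ c), fun x c => hB x (φ c)⟩

theorem Comp.congr {W d : ℕ} {f g : (α → Bool) → β → Bool} (h : Comp α W d f)
    (hfg : ∀ x b, g x b = f x b) : Comp α W d g := by
  obtain ⟨B, o, hB⟩ := h
  exact ⟨B, o, fun x b => by rw [hB, hfg]⟩

theorem Comp.widen {W W' d : ℕ} {f : (α → Bool) → β → Bool} (h : Comp α W d f) (hW : W ≤ W') :
    Comp α W' d f := by
  classical
  obtain ⟨B, o, hB⟩ := h
  have key : ∀ (x : α → Bool) (k : ℕ) (i : Fin W),
      (⟨fun k j => if h : (j : ℕ) < W then
        (B.gate k ⟨j, h⟩).map (Sum.map id (Fin.castLE hW)) else .const false⟩ :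
          BCircuit α W').level x k (Fin.castLE hW i) = B.level x k i := by
    intro x k
    induction k with
    | zero => intro i; rfl
    | succ k ih =>
      intro i
      change BGate.eval _ (if h : ((Fin.castLE hW i : Fin W') : ℕ) < W then _ else _) = _
      have hi : ((Fin.castLE hW i : Fin W') : ℕ) < W := i.isLt
      rw [dif_pos hi, BGate.eval_map]
      change _ = (B.gate k i).eval (Sum.elim x (B.level x k))
      have h1 : (⟨((Fin.castLE hW i : Fin W') : ℕ), hi⟩ : Fin W) = i := rfl
      rw [h1]
      congr 1
      funext a
      rcases a with a | a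
      · rfl
      · exact ih a
  exact ⟨_, fun b => Fin.castLE hW (o b), fun x b => by rw [key, hB]⟩

/-- A family of layers over arbitrary finite types gives a circuit: `F k` computes the bits of
level `k + 1` from the input bits and the bits of level `k`. -/
theorem Comp.ofFamily {σ : Type} [Fintype σ] {W : ℕ} (hσ : Fintype.card σ ≤ W)
    (G : ℕ → σ → BGate (α ⊕ σ)) :
    ∃ (B : BCircuit α W) (ι : σ → Fin W), ∀ (s : (α → Bool) → ℕ → σ → Bool),
      (∀ x, s x 0 = fun _ => false) →
      (∀ x k c, s x (k + 1) c = (G k c).eval (Sum.elim x (s x k))) →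
      ∀ x k c, B.level x k (ι c) = s x k c := by
  classical
  have e1 : Nonempty (σ ↪ Fin W) := by
    apply Function.Embedding.nonempty_of_card_le
    simpa using hσ
  obtain ⟨ι⟩ := e1
  let B : BCircuit α W := ⟨fun k i =>
    if hi : ∃ c, ι c = i then (G k hi.choose).map (Sum.map id ι) else .const false⟩
  refine ⟨B, ι, fun s h0 hs x k => ?_⟩
  induction k with
  | zero => intro c; rw [h0]; rfl
  | succ k ih =>
    intro c
    have hex : ∃ c', ι c' = ι c := ⟨c, rfl⟩
    have h3 : B.gate k (ι c) = (G k c).map (Sum.map id ι) := by
      change (if hi : ∃ c', ι c' = ι c then (G k hi.choose).map (Sum.map id ι)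
        else .const false) = _
      rw [dif_pos hex]
      have : hex.choose = c := ι.injective hex.choose_spec
      rw [this]
    change (B.gate k (ι c)).eval (Sum.elim x (B.level x k)) = _
    rw [h3, BGate.eval_map, hs]
    congr 1
    funext a
    cases a with
    | inl a => rfl
    | inr b => exact ih b

/-- Parallel copies. -/
theorem Comp.par {ι : Type} [Fintype ι] {B' : ι → Type} {W d : ℕ}
    {f : ∀ i, (α → Bool) → B' i → Bool} (h : ∀ i, Comp α W d (f i)) :
    Comp α (Fintype.card ι * W) d (fun x (p : Σ i, B' i) => f p.1 x p.2) := by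
  classical
  choose B o hB using h
  obtain ⟨C, e, hC⟩ := Comp.ofFamily (α := α) (σ := ι × Fin W) (W := Fintype.card ι * W)
    (by simp) (fun k c => ((B c.1).gate k c.2).map (Sum.map id (fun j => (c.1, j))))
  refine ⟨C, fun p => e (p.1, o p.1 p.2), fun x p => ?_⟩
  rw [hC (fun x k c => (B c.1).level x k c.2) (fun x => rfl) (fun x k c => ?_)]
  · exact hB p.1 x p.2
  · rw [BGate.eval_map]
    change ((B c.1).gate k c.2).eval (Sum.elim x ((B c.1).level x k)) = _
    congr 1
    funext a
    cases a <;> rfl

/-- Composition. -/
theorem Comp.comp [Fintype β] {W W' d d' : ℕ} {f : (α → Bool) → β → Bool}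
    {g : (β → Bool) → γ → Bool} (hf : Comp α W d f) (hg : Comp β W' d' g) (hd' : 1 ≤ d') :
    Comp α (W + Fintype.card β + W') (d + d') (fun x => g (f x)) := by
  classical
  obtain ⟨B, o, hB⟩ := hf
  obtain ⟨B', o', hB'⟩ := hg
  let src : ℕ → β → Fin W ⊕ β ⊕ Fin W' := fun k b => if k = d then Sum.inl (o b) else
    Sum.inr (Sum.inl b)
  obtain ⟨C, e, hC⟩ := Comp.ofFamily (α := α) (σ := Fin W ⊕ β ⊕ Fin W')
    (W := W + Fintype.card β + W') (by simp [add_assoc]) (fun k c => match c with
      | Sum.inl i => if k < d then (B.gate k i).map (Sum.map id Sum.inl) else .const false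
      | Sum.inr (Sum.inl b) => if k < d then .const false else .wire (Sum.inr (src k b))
      | Sum.inr (Sum.inr j) => if k < d then .const false else
          (B'.gate (k - d) j).map (Sum.elim (fun b => Sum.inr (src k b))
            (fun j' => Sum.inr (Sum.inr (Sum.inr j')))))
  let s : (α → Bool) → ℕ → (Fin W ⊕ β ⊕ Fin W') → Bool := fun x k c => match c with
    | Sum.inl i => if k ≤ d then B.level x k i else false
    | Sum.inr (Sum.inl b) => if k ≤ d then false else f x b
    | Sum.inr (Sum.inr j) => if k ≤ d then false else B'.level (f x) (k - d) j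
  have hsrc : ∀ x k b, d ≤ k → s x k (src k b) = f x b := by
    intro x k b hk
    by_cases h1 : k = d
    · have h2 : src k b = Sum.inl (o b) := by simp only [src, h1, if_true]
      rw [h2, h1]
      change (if d ≤ d then B.level x d (o b) else false) = _
      rw [if_pos le_rfl, hB]
    · have h2 : src k b = Sum.inr (Sum.inl b) := by simp only [src, h1, if_false]
      rw [h2]
      change (if k ≤ d then false else f x b) = _
      rw [if_neg (by omega)]
  have key := hC s (fun x => by
      funext c
      rcases c with i | b | j
      · change (if 0 ≤ d then B.level x 0 i else false) = false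
        simp [BCircuit.level]
      · change (if 0 ≤ d then false else f x b) = false
        simp
      · change (if 0 ≤ d then false else B'.level (f x) (0 - d) j) = false
        simp) (fun x k c => by
      rcases c with i | b | j
      · change (if k + 1 ≤ d then B.level x (k + 1) i else false) =
          BGate.eval _ (if k < d then (B.gate k i).map (Sum.map id Sum.inl) else .const false)
        by_cases h1 : k < d
        · rw [if_pos h1, if_pos (by omega), BGate.eval_map]
          change (B.gate k i).eval (Sum.elim x (B.level x k)) = _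
          congr 1
          funext a
          cases a with
          | inl a => rfl
          | inr a =>
            change B.level x k a = (if k ≤ d then B.level x k a else false)
            rw [if_pos (by omega)]
        · rw [if_neg h1, if_neg (by omega)]
          rfl
      · change (if k + 1 ≤ d then false else f x b) =
          BGate.eval _ (if k < d then .const false else .wire (Sum.inr (src k b)))
        by_cases h1 : k < d
        · rw [if_pos h1, if_pos (by omega)]
          rfl
        · rw [if_neg h1, if_neg (by omega)]
          exact (hsrc x k b (by omega)).symm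
      · change (if k + 1 ≤ d then false else B'.level (f x) (k + 1 - d) j) =
          BGate.eval _ (if k < d then .const false else
          (B'.gate (k - d) j).map (Sum.elim (fun b => Sum.inr (src k b))
            (fun j' => Sum.inr (Sum.inr (Sum.inr j')))))
        by_cases h1 : k < d
        · rw [if_pos h1, if_pos (by omega)]
          rfl
        · rw [if_neg h1, if_neg (by omega), BGate.eval_map]
          have h2 : k + 1 - d = (k - d) + 1 := by omega
          rw [h2]
          change (B'.gate (k - d) j).eval (Sum.elim (f x) (B'.level (f x) (k - d))) = _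
          congr 1
          funext a
          cases a with
          | inl a => exact (hsrc x k a (by omega)).symm
          | inr a =>
            change B'.level (f x) (k - d) a = (if k ≤ d then false else B'.level (f x) (k - d) a)
            by_cases h3 : k ≤ d
            · rw [if_pos h3]
              have h4 : k - d = 0 := by omega
              rw [h4]
              rfl
            · rw [if_neg h3])
  refine ⟨C, fun c => e (Sum.inr (Sum.inr (o' c))), fun x c => ?_⟩
  rw [key]
  change (if d + d' ≤ d then false else B'.level (f x) (d + d' - d) (o' c)) = _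
  rw [if_neg (by omega), Nat.add_sub_cancel_left, hB']

/-- Constant functions and input bits are available on every level but level `0`. -/
theorem Comp.gates [Fintype γ] (F : γ → BGate α) (d : ℕ) :
    Comp α (Fintype.card γ) (d + 1) (fun x c => (F c).eval x) := by
  classical
  obtain ⟨C, e, hC⟩ := Comp.ofFamily (α := α) (σ := γ) (W := Fintype.card γ) le_rfl
    (fun _ c => (F c).map Sum.inl)
  refine ⟨C, e, fun x c => ?_⟩
  rw [hC (fun x k c => match k with
    | 0 => false
    | _ + 1 => (F c).eval x) (fun x => rfl) (fun x k c => ?_)]
  rw [BGate.eval_map]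
  rfl

/-- The depth may be increased. -/
theorem Comp.wait [Fintype β] {W d d' : ℕ} {f : (α → Bool) → β → Bool} (h : Comp α W d f)
    (hd : d ≤ d') : Comp α (W + Fintype.card β + Fintype.card β) d' f := by
  rcases hd.eq_or_lt with h1 | h1
  · subst h1
    exact h.widen (by omega)
  · have h2 := Comp.gates (α := β) (fun b : β => BGate.wire b) (d' - d - 1)
    have h3 := h.comp h2 (by omega)
    have e : d + (d' - d - 1 + 1) = d' := by omega
    rw [e] at h3
    exact h3

/-- Two functions side by side. -/
theorem Comp.pair {W W' d : ℕ} {f : (α → Bool) → β → Bool} {g : (α → Bool) → γ → Bool}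
    (hf : Comp α W d f) (hg : Comp α W' d g) :
    Comp α (2 * (W + W')) d (fun x => Sum.elim (f x) (g x)) := by
  have h1 := hf.widen (show W ≤ W + W' by omega)
  have h2 := hg.widen (show W' ≤ W + W' by omega)
  have h3 := Comp.par (α := α) (ι := Bool) (B' := fun b => if b = true then β else γ)
    (W := W + W') (d := d)
    (f := fun b => match b with
      | true => f
      | false => g) (fun b => by cases b; exact h2; exact h1)
  rw [Fintype.card_bool] at h3
  have h4 := h3.reindex (fun c : β ⊕ γ => match c with
    | Sum.inl b => ⟨true, b⟩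
    | Sum.inr b => ⟨false, b⟩)
  exact h4.congr (fun x b => by cases b <;> rfl)

theorem FD.rename {β' : Type} {k : ℕ} {f : (β → Bool) → Bool} (h : FD k f) (φ : β → β') :
    FD k (fun y => f (fun b => y (φ b))) := by
  induction k generalizing f with
  | zero =>
    obtain ⟨G, hG⟩ := h
    exact ⟨G.map φ, fun y => by
      change f (fun b => y (φ b)) = _
      rw [BGate.eval_map, hG]⟩
  | succ k ih =>
    obtain ⟨G, f', hf', hG⟩ := h
    exact ⟨G, fun i y => f' i (fun b => y (φ b)), fun i => ih (hf' i), fun y => hG _⟩

/-- Formulas. -/
theorem Comp.ofFD [Fintype γ] {k : ℕ} {F : γ → (α → Bool) → Bool} (h : ∀ c, FD k (F c)) :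
    Comp α (Fintype.card γ * 2 ^ k) (k + 1) (fun x c => F c x) := by
  have h1 := Lev.formula (α := α) (W := Fintype.card γ * 2 ^ k) (k := k) (γ := γ)
    (fun c (y : α ⊕ Empty → Bool) => F c (fun a => y (Sum.inl a)))
    (fun c => FD.rename (h c) Sum.inl) le_rfl Lev.base
  obtain ⟨B, o, hB⟩ := h1.toCircuit
  rw [Nat.zero_add] at hB
  exact ⟨B, o, fun x c => hB x c⟩

/-- Formulas in the input bits and the bits computed before. -/
theorem Comp.stage [Fintype α] [Fintype β] [Fintype γ] {W d k : ℕ}
    {f : (α → Bool) → β → Bool} (hf : Comp α W d f) (hd : 1 ≤ d)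
    {F : γ → (α ⊕ β → Bool) → Bool} (h : ∀ c, FD k (F c)) :
    Comp α (2 * (Fintype.card α + W) + (Fintype.card α + Fintype.card β) +
      Fintype.card γ * 2 ^ k) (d + (k + 1)) (fun x c => F c (Sum.elim x (f x))) := by
  have h1 : Comp α (Fintype.card α) d (fun x (a : α) => x a) := by
    have := Comp.gates (fun a : α => BGate.wire a) (d - 1)
    have e : d - 1 + 1 = d := by omega
    rw [e] at this
    exact this
  have h2 := h1.pair hf
  have h3 := h2.comp (Comp.ofFD h) (Nat.succ_pos _)
  rw [Fintype.card_sum] at h3
  exact h3

end Pool.Agent.LibCC88
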