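import Pool.Agent.LibCC89.DriftDepth
import Pool.Agent.LibCC88.Avg

/-!
Cut circuits: some ports of a comparator circuit are disconnected and read private sources.
Exponential potential, averaged over independent random cuts.
-/

namespace Pool.Agent.LibCC88

open Pool.Agent.LibCC Pool.Agent.LibCCS Pool.Agent.LibCC67 Pool.Agent.LibCC89 Finset

variable {n m : ℕ}

/-- The private source of a port. -/
def pv (p : Fin m × Bool) : Fin (n + 2 * m) :=
  ⟨n + (2 * (p.1 : ℕ) + p.2.toNat), by
    have h1 := p.1.isLt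
    have h2 : p.2.toNat ≤ 1 := Bool.toNat_le p.2
    omega⟩

/-- The arcs of the circuit as arcs of the cut circuit. -/
def up : Arc n m → Arc (n + 2 * m) m
  | Sum.inl i => Sum.inl (Fin.castAdd (2 * m) i)
  | Sum.inr a => Sum.inr a

theorem up_inj : Function.Injective (up : Arc n m → Arc (n + 2 * m) m) := by
  intro a b h
  rcases a with i | a <;> rcases b with j | b
  · simp only [up, Sum.inl.injEq] at h
    rw [Fin.castAdd_inj] at h
    rw [h]
  · simp [up] at h
  · simp [up] at h
  · simp only [up, Sum.inr.injEq] at h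
    rw [h]

theorem pv_inj : Function.Injective (pv : Fin m × Bool → Fin (n + 2 * m)) := by
  rintro ⟨g, b⟩ ⟨g', b'⟩ h
  simp only [pv, Fin.mk.injEq] at h
  have h1 : b.toNat ≤ 1 := Bool.toNat_le b
  have h2 : b'.toNat ≤ 1 := Bool.toNat_le b'
  have h3 : (g : ℕ) = g' := by omega
  have h4 : b.toNat = b'.toNat := by omega
  have h5 : b = b' := by
    cases b <;> cases b' <;> simp at h4 <;> rfl
  rw [Fin.ext h3, h5]

theorem up_ne_pv (a : Arc n m) (p : Fin m × Bool) : up a ≠ Sum.inl (pv p) := by
  rcases a with i | a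
  · intro h
    simp only [up, Sum.inl.injEq] at h
    have h1 := congrArg Fin.val h
    simp only [pv, Fin.val_castAdd] at h1
    have := i.isLt
    omega
  · simp [up]

/-- The circuit in which the ports in `K` read their private sources. -/
def cutC (C : CompCircuit n m) (K : Fin m × Bool → Bool) : CompCircuit (n + 2 * m) m where
  inp p := if K p = true then Sum.inl (pv p) else up (C.inp p)
  inj := by
    intro p p' h
    dsimp only at h
    split_ifs at h with h1 h2 h2
    · exact pv_inj (Sum.inl.inj h)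
    · exact absurd h.symm (up_ne_pv _ _)
    · exact absurd h (up_ne_pv _ _)
    · exact C.inj (up_inj h)
  acyclic := by
    obtain ⟨ord, hord⟩ := C.acyclic
    refine ⟨ord, fun g b h c hh => ?_⟩
    split_ifs at hh with h1
    rcases hb : C.inp (g, b) with i | a
    · rw [hb] at hh
      simp [up] at hh
    · rw [hb] at hh
      simp only [up, Sum.inr.injEq] at hh
      exact hord g b h c (by rw [hb, hh])

theorem cutC_inp (C : CompCircuit n m) (K : Fin m × Bool → Bool) (p : Fin m × Bool) :
    (cutC C K).inp p = if K p = true then Sum.inl (pv p) else up (C.inp p) := rfl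

/-- The set of cut ports. -/
def kap {Q : ℕ} (c0 : Fin Q) (ω : Fin m × Bool → Fin Q) (p : Fin m × Bool) : Bool :=
  decide (ω p = c0)

/-- The averaged exponential potential does not grow, up to the contribution of the cuts. -/
theorem avg_potential (C : CompCircuit n m) {Q : ℕ} (c0 : Fin Q)
    {f : (Fin m × Bool → Fin Q) → Arc (n + 2 * m) m → ℝ} {A : ℝ}
    (hA : A * (1 - 1 / Q) ≤ 1) (hf0 : ∀ ω a, 0 ≤ f ω a)
    (hsrc : ∀ ω i, f ω (Sum.inl i) = 1)
    (hgate : ∀ ω g, f ω (Sum.inr (g, true)) + f ω (Sum.inr (g, false)) ≤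
      A * (f ω ((cutC C (kap c0 ω)).inp (g, false)) + f ω ((cutC C (kap c0 ω)).inp (g, true))))
    (hinv : ∀ p ω k, f (Function.update ω p k) (up (C.inp p)) = f ω (up (C.inp p))) :
    ∀ Gs, Dn C Gs → ∑ ω, ∑ a ∈ Av C Gs, f ω (up a) ≤
      (Fintype.card (Fin m × Bool → Fin Q) : ℝ) * (n + 2 * A / Q * Gs.card) := by
  classical
  have hQ0 : 0 < Q := lt_of_le_of_lt (Nat.zero_le _) c0.isLt
  have hQ : (0 : ℝ) < Q := by exact_mod_cast hQ0
  apply Dn.induction
  · have h1 : Av C ∅ = univ.map ⟨Sum.inl, Sum.inl_injective⟩ := by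
      ext a
      rw [mem_Av]
      rcases a with i | ⟨h, c⟩ <;> simp
    rw [h1]
    simp [sum_map, up, hsrc]
  · rintro Gs g hD hg hin ih ho
    have h1 : ∀ ω, ∑ a ∈ Av C (insert g Gs), f ω (up a) = ∑ a ∈ Av C Gs, f ω (up a) +
        (f ω (Sum.inr (g, true)) + f ω (Sum.inr (g, false))) -
        (f ω (up (C.inp (g, false))) + f ω (up (C.inp (g, true)))) := by
      intro ω
      rw [sum_Av_insert hg hD hin ho (fun a => f ω (up a))]
      simp only [up]
      ring
    rw [Finset.sum_congr rfl (fun ω _ => h1 ω), Finset.sum_sub_distrib, Finset.sum_add_distrib]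
    have h2 : ∀ b, ∑ ω, f ω ((cutC C (kap c0 ω)).inp (g, b)) =
        (1 - 1 / Q) * (∑ ω, f ω (up (C.inp (g, b)))) +
          1 * Fintype.card (Fin m × Bool → Fin Q) / Q := by
      intro b
      rw [← sum_cut_exp (F := fun ω => f ω (up (C.inp (g, b)))) (i := (g, b)) c0
        (fun ω k => hinv (g, b) ω k) 1]
      apply Finset.sum_congr rfl
      intro ω _
      rw [cutC_inp]
      unfold kap
      by_cases h : ω (g, b) = c0
      · rw [if_pos h]
        simp [h, hsrc]
      · rw [if_neg h]
        simp [h]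
    have h3 : ∑ ω, (f ω (Sum.inr (g, true)) + f ω (Sum.inr (g, false))) ≤
        A * (∑ ω, f ω ((cutC C (kap c0 ω)).inp (g, false)) +
          ∑ ω, f ω ((cutC C (kap c0 ω)).inp (g, true))) := by
      rw [← Finset.sum_add_distrib, Finset.mul_sum]
      exact Finset.sum_le_sum (fun ω _ => hgate ω g)
    rw [h2, h2] at h3
    rw [Finset.sum_add_distrib (f := fun ω => f ω (up (C.inp (g, false))))]
    have h4 : 0 ≤ ∑ ω, f ω (up (C.inp (g, false))) := Finset.sum_nonneg (fun ω _ => hf0 ω _)
    have h5 : 0 ≤ ∑ ω, f ω (up (C.inp (g, true))) := Finset.sum_nonneg (fun ω _ => hf0 ω _)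
    rw [Finset.card_insert_of_notMem hg]
    set X := ∑ ω, f ω (up (C.inp (g, false)))
    set Y := ∑ ω, f ω (up (C.inp (g, true)))
    set c : ℝ := (Fintype.card (Fin m × Bool → Fin Q) : ℝ)
    have h6 : A * ((1 - 1 / Q) * X + 1 * c / Q + ((1 - 1 / Q) * Y + 1 * c / Q)) ≤
        X + Y + c * (2 * A / Q) := by
      have h7 := mul_le_mul_of_nonneg_right hA (add_nonneg h4 h5)
      have h8 : A * ((1 - 1 / Q) * X + 1 * c / Q + ((1 - 1 / Q) * Y + 1 * c / Q)) =
          A * (1 - 1 / Q) * (X + Y) + c * (2 * A / Q) := by ring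
      rw [h8]
      linarith
    push_cast
    have h9 : c * (n + 2 * A / Q * ((Gs.card : ℝ) + 1)) =
        c * (n + 2 * A / Q * Gs.card) + c * (2 * A / Q) := by ring
    rw [h9]
    linarith

end Pool.Agent.LibCC88
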