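import Pool.Agent.LibCC88.CutForm

/-!
The evaluation of a cut circuit: one circuit of depth `q` times a polylogarithm computes, for
every instance, a set of at most `16 m / q ^ 2` cut ports and both extreme runs of the cut
circuit.
-/

namespace Pool.Agent.LibCC88

open Pool.Agent.LibCC Pool.Agent.LibCCV Pool.Agent.LibCCS Pool.Agent.LibCC67 Pool.Agent.LibCC89 Finset

variable {n m : ℕ}

/-! ### Polynomial bounds -/

/-- Polynomially bounded functions. -/
def PB {ι : Type} (S f : ι → ℕ) : Prop := ∃ c, ∀ i, f i ≤ c * S i ^ c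

section PB

variable {ι : Type} {S f g : ι → ℕ}

theorem PB.of_le (hf : PB S g) (h : ∀ i, f i ≤ g i) : PB S f := by
  obtain ⟨c, hc⟩ := hf
  exact ⟨c, fun i => (h i).trans (hc i)⟩

theorem PB.mono_exp (hS : ∀ i, 1 ≤ S i) {a b c : ℕ} (ha : a ≤ c) (hb : b ≤ c)
    (h : ∀ i, f i ≤ a * S i ^ b) : ∀ i, f i ≤ c * S i ^ c := fun i =>
  (h i).trans (Nat.mul_le_mul ha (Nat.pow_le_pow_right (hS i) hb))

theorem PB.mk' (hS : ∀ i, 1 ≤ S i) (a b : ℕ) (h : ∀ i, f i ≤ a * S i ^ b) : PB S f :=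
  ⟨a + b, PB.mono_exp hS (Nat.le_add_right a b) (Nat.le_add_left b a) h⟩

theorem PB.const (hS : ∀ i, 1 ≤ S i) (k : ℕ) : PB S (fun _ => k) :=
  PB.mk' hS k 0 (fun i => by simp)

theorem PB.self (hS : ∀ i, 1 ≤ S i) : PB S S := PB.mk' hS 1 1 (fun i => by simp)

theorem PB.add (hS : ∀ i, 1 ≤ S i) (hf : PB S f) (hg : PB S g) : PB S (fun i => f i + g i) := by
  obtain ⟨a, ha⟩ := hf
  obtain ⟨b, hb⟩ := hg
  refine PB.mk' hS (a + b) (a + b) (fun i => ?_)
  rw [add_mul]
  exact Nat.add_le_add ((ha i).trans (Nat.mul_le_mul_left _ (Nat.pow_le_pow_right (hS i)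
    (Nat.le_add_right a b)))) ((hb i).trans (Nat.mul_le_mul_left _ (Nat.pow_le_pow_right (hS i)
    (Nat.le_add_left b a))))

theorem PB.mul (hS : ∀ i, 1 ≤ S i) (hf : PB S f) (hg : PB S g) : PB S (fun i => f i * g i) := by
  obtain ⟨a, ha⟩ := hf
  obtain ⟨b, hb⟩ := hg
  refine PB.mk' hS (a * b) (a + b) (fun i => ?_)
  calc f i * g i ≤ (a * S i ^ a) * (b * S i ^ b) := Nat.mul_le_mul (ha i) (hb i)
    _ = a * b * S i ^ (a + b) := by rw [pow_add]; ring

theorem PB.pow (hS : ∀ i, 1 ≤ S i) (hf : PB S f) (k : ℕ) : PB S (fun i => f i ^ k) := by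
  induction k with
  | zero => simpa using PB.const hS 1
  | succ k ih => simpa only [pow_succ] using PB.mul hS ih hf

theorem PB.comp {κ : Type} (h : PB S f) (φ : κ → ι) : PB (fun k => S (φ k)) (fun k => f (φ k)) := by
  obtain ⟨c, hc⟩ := h
  exact ⟨c, fun k => hc (φ k)⟩

end PB

/-- Runs exist. -/
theorem exists_val (C : CompCircuit n m) (x : Fin n → Bool) : ∃ v, C.IsVal x v := by
  obtain ⟨ord, hord⟩ := C.acyclic
  have key : ∀ k : ℕ, ∃ v : Arc n m → Bool, (∀ i, v (Sum.inl i) = x i) ∧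
      ∀ g, ord g < k → v (Sum.inr (g, false)) = (v (C.inp (g, false)) && v (C.inp (g, true))) ∧
        v (Sum.inr (g, true)) = (v (C.inp (g, false)) || v (C.inp (g, true))) := by
    intro k
    induction k with
    | zero => exact ⟨Sum.elim x (fun _ => false), fun i => rfl, fun g hg => by omega⟩
    | succ k ih =>
      obtain ⟨v, hv1, hv2⟩ := ih
      let v' : Arc n m → Bool := fun a => match a with
        | Sum.inl i => x i
        | Sum.inr (g, c) => if ord g = k then comb c (v (C.inp (g, false))) (v (C.inp (g, true)))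
            else v (Sum.inr (g, c))
      have h1 : ∀ g b, ord g < k + 1 → v' (C.inp (g, b)) = v (C.inp (g, b)) := by
        intro g b hg
        rcases hb : C.inp (g, b) with i | ⟨h, c⟩
        · exact (hv1 i).symm
        · have := hord g b h c hb
          change (if ord h = k then _ else _) = _
          rw [if_neg (by omega)]
      refine ⟨v', fun i => rfl, fun g hg => ?_⟩
      rw [h1 g false hg, h1 g true hg]
      by_cases hgk : ord g = k
      · constructor
        · change (if ord g = k then _ else _) = _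
          rw [if_pos hgk]
          rfl
        · change (if ord g = k then _ else _) = _
          rw [if_pos hgk]
          rfl
      · have h2 := hv2 g (by omega)
        constructor
        · change (if ord g = k then _ else _) = _
          rw [if_neg hgk]
          exact h2.1
        · change (if ord g = k then _ else _) = _
          rw [if_neg hgk]
          exact h2.2
  obtain ⟨v, h1, h2⟩ := key (univ.sup ord + 1)
  have h3 : ∀ g, ord g < univ.sup ord + 1 := fun g =>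
    Nat.lt_succ_of_le (Finset.le_sup (f := ord) (mem_univ g))
  exact ⟨v, h1, fun g => (h2 g (h3 g)).1, fun g => (h2 g (h3 g)).2⟩

/-- The bits computed by the cut evaluation: the cut ports, the values of the two extreme runs
on all arcs of the cut circuit, the slots of the cut ports. -/
abbrev CO (n m q : ℕ) : Type :=
  (Fin m × Bool) ⊕ ((Bool × Arc (n + 2 * m) m) ⊕ (Fin (16 * m / q ^ 2) × (Fin m × Bool)))

theorem lg_double (n m : ℕ) : lg (n + 2 * m) m ≤ lg n m + 1 := by
  unfold lg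
  have h : Nat.log 2 (n + 2 * m + 2 * m + 1) ≤ Nat.log 2 (2 * (n + 2 * m + 1)) :=
    Nat.log_mono_right (by omega)
  have h2 : Nat.log 2 (2 * (n + 2 * m + 1)) = Nat.log 2 (n + 2 * m + 1) + 1 := by
    rw [mul_comm]
    exact Nat.log_mul_base (by norm_num) (by omega)
  omega

theorem J_le (n m q : ℕ) (hq : q ≤ n + 2 * m + 1) :
    Jq (lg (n + 2 * m) m) q ≤ 2 ^ (6 * lg (n + 2 * m) m) := by
  set l := lg (n + 2 * m) m with hl
  have hl1 : 1 ≤ l := lg_pos _ _
  have h1 : l ≤ 2 ^ l := Nat.lt_two_pow_self.le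
  have hsz : n + 2 * m + 2 * m + 1 ≤ 2 ^ l := size_le (n + 2 * m) m
  unfold Jq
  by_cases h2 : 2 ≤ l
  · calc q * (32 * l) ≤ 2 ^ l * (2 ^ 5 * 2 ^ l) :=
        Nat.mul_le_mul (by omega) (Nat.mul_le_mul (by norm_num) h1)
      _ = 2 ^ (5 + 2 * l) := by rw [← pow_add, ← pow_add]; congr 1; ring
      _ ≤ 2 ^ (6 * l) := Nat.pow_le_pow_right (by norm_num) (by omega)
  · have h3 : l = 1 := by omega
    rw [h3] at hsz ⊢
    have : q ≤ 2 := by omega
    norm_num
    omega

open Classical in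
/-- Slots of a small set of ports. -/
theorem exists_slots (K : Fin m × Bool → Bool) {q : ℕ} (hq : 1 ≤ q)
    (hK : q ^ 2 * (univ.filter (fun p => K p = true)).card ≤ 16 * m) :
    ∃ sl : Fin (16 * m / q ^ 2) → Fin m × Bool → Bool,
      (∀ p, K p = true ↔ ∃ k, sl k p = true) ∧
      (∀ k k' p, sl k p = true → sl k' p = true → k = k') ∧
      (∀ k p p', sl k p = true → sl k p' = true → p = p') := by
  have h1 : (univ.filter (fun p => K p = true)).card ≤ 16 * m / q ^ 2 := by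
    rw [Nat.le_div_iff_mul_le (by positivity)]
    rwa [mul_comm]
  have h2 : Nonempty ({p // K p = true} ↪ Fin (16 * m / q ^ 2)) := by
    apply Function.Embedding.nonempty_of_card_le
    rw [Fintype.card_subtype, Fintype.card_fin]
    exact h1
  obtain ⟨e⟩ := h2
  refine ⟨fun k p => decide (∃ h : K p = true, e ⟨p, h⟩ = k), fun p => ?_, fun k k' p h h' => ?_,
    fun k p p' h h' => ?_⟩
  · constructor
    · intro h
      exact ⟨e ⟨p, h⟩, by simp [h]⟩
    · rintro ⟨k, hk⟩
      rw [decide_eq_true_iff] at hk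
      exact hk.1
  · rw [decide_eq_true_iff] at h h'
    obtain ⟨h1, h2⟩ := h
    obtain ⟨h3, h4⟩ := h'
    rw [← h2, ← h4]
  · rw [decide_eq_true_iff] at h h'
    obtain ⟨h1, h2⟩ := h
    obtain ⟨h3, h4⟩ := h'
    have := e.injective (h2.trans h4.symm)
    exact congrArg Subtype.val this

/-- The number of candidate cut sets. -/
abbrev Rn (n m : ℕ) : ℕ := 2 * m * (n + 2 * m) + n + 1

theorem Rn_le (n m : ℕ) : Rn n m ≤ 2 ^ (2 * lg n m) := by
  have h := size_le n m
  calc Rn n m ≤ (n + 2 * m + 1) * (n + 2 * m + 1) := by unfold Rn; nlinarith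
    _ ≤ 2 ^ lg n m * 2 ^ lg n m := Nat.mul_le_mul h h
    _ = 2 ^ (2 * lg n m) := by rw [two_mul, pow_add]

/-- The candidate bits. -/
abbrev CI (n m : ℕ) : Type := Fin (Rn n m) × (Bool × Arc (n + 2 * m) m)

/-- The cut ports, the extreme runs and the slots. -/
structure CutOut (C : CompCircuit n m) (x : Fin n → Bool) (q : ℕ) (y : CO n m q → Bool) : Prop where
  ex : ∃ (K : Fin m × Bool → Bool) (sl : Fin (16 * m / q ^ 2) → Fin m × Bool → Bool),
    (∀ p, K p = true ↔ ∃ k, sl k p = true) ∧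
    (∀ k k' p, sl k p = true → sl k' p = true → k = k') ∧
    (∀ k p p', sl k p = true → sl k p' = true → p = p') ∧
    (∀ p, y (Sum.inl p) = K p) ∧
    (∀ k p, y (Sum.inr (Sum.inr (k, p))) = sl k p) ∧
    (∀ z v, (cutC C K).IsVal (ext x z) v → ∀ a, y (Sum.inr (Sum.inl (z, a))) = v a)

/-- The instance bits as a sum type. -/
def bitEquiv (n m : ℕ) : Bit n m ≃ ((Fin m × Bool) × Arc n m) ⊕ (Fin n ⊕ Arc n m) where
  toFun b := match b with
    | .link p a => Sum.inl (p, a)
    | .src i => Sum.inr (Sum.inl i)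
    | .goal a => Sum.inr (Sum.inr a)
  invFun c := match c with
    | Sum.inl p => .link p.1 p.2
    | Sum.inr (Sum.inl i) => .src i
    | Sum.inr (Sum.inr a) => .goal a
  left_inv b := by cases b <;> rfl
  right_inv c := by rcases c with p | i | a <;> rfl

instance (n m : ℕ) : Fintype (Bit n m) := Fintype.ofEquiv _ (bitEquiv n m).symm

theorem card_bit (n m : ℕ) : Fintype.card (Bit n m) = 2 * m * (n + 2 * m) + (n + (n + 2 * m)) := by
  rw [Fintype.card_congr (bitEquiv n m)]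
  simp only [Fintype.card_sum, Fintype.card_prod, Fintype.card_fin, Fintype.card_bool]
  ring

/-- The circuit for one size. -/
theorem cutEval_one (n m q : ℕ) (hq : 1 ≤ q) (hqN : q ≤ n + 2 * m + 1) {W0 D0 : ℕ}
    (B : BCircuit (Bit (n + 2 * m) m) W0) (o : Fin W0)
    (hB : ∀ (C : CompCircuit (n + 2 * m) m) (x : Fin (n + 2 * m) → Bool),
      GoodI C (Jq (lg (n + 2 * m) m) q) (lg (n + 2 * m) m) x →
      ∀ v, C.IsVal x v → ∀ e, B.level (encode C x e) D0 o = v e) :
    ∃ f : (LB n m → Bool) → CO n m q → Bool,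
      Comp (LB n m) (2 * (Fintype.card (LB n m) + Fintype.card (CI n m) *
          (Fintype.card (Bit (n + 2 * m) m) + Fintype.card (Bit (n + 2 * m) m) +
            (W0 + Fintype.card Unit + Fintype.card Unit))) +
          (Fintype.card (LB n m) + Fintype.card (CI n m)) +
          Fintype.card (CO n m q) * 2 ^ (6 * lg n m + 13))
        (0 + 1 + (D0 + 1) + (6 * lg n m + 13 + 1)) f ∧
      ∀ (C : CompCircuit n m) (x : Fin n → Bool), CutOut C x q (f (lenc C x)) := by
  classical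
  obtain ⟨K, hK1, hK2⟩ := good_list n m q hq hqN
  choose sl hsl1 hsl2 hsl3 using fun r => exists_slots (K r) hq (hK1 r)
  set l := lg (n + 2 * m) m with hl
  have hcand : ∀ i : CI n m, Comp (LB n m) (Fintype.card (Bit (n + 2 * m) m) +
      Fintype.card (Bit (n + 2 * m) m) + (W0 + Fintype.card Unit + Fintype.card Unit))
      (0 + 1 + (D0 + 1)) (fun y (_ : Unit) =>
        B.level (fun b => (encG (K i.1) i.2.1 i.2.2 b).eval y) D0 o) := by
    intro i
    have h1 : Comp (Bit (n + 2 * m) m) W0 D0 (fun y (_ : Unit) => B.level y D0 o) :=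
      ⟨B, fun _ => o, fun _ _ => rfl⟩
    have h2 := h1.wait (Nat.le_succ D0)
    have h3 := Comp.gates (encG (K i.1) i.2.1 i.2.2) 0
    exact h3.comp h2 (Nat.succ_pos _)
  have hpar := (Comp.par hcand).reindex (fun i : CI n m => ⟨i, ()⟩)
  let cnd : (LB n m → Bool) → CI n m → Bool := fun y i =>
    B.level (fun b => (encG (K i.1) i.2.1 i.2.2 b).eval y) D0 o
  let cons : Fin (Rn n m) → ((LB n m ⊕ CI n m) → Bool) → Bool := fun r y =>
    validB (K r) (fun p a => Sum.inl (Sum.inl (p, a))) (fun i => Sum.inl (Sum.inr i))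
        (fun a => Sum.inr (r, (false, a))) false y &&
      validB (K r) (fun p a => Sum.inl (Sum.inl (p, a))) (fun i => Sum.inl (Sum.inr i))
        (fun a => Sum.inr (r, (true, a))) true y
  let out : CO n m q → Fin (Rn n m) → ((LB n m ⊕ CI n m) → Bool) → Bool := fun c r y =>
    match c with
    | Sum.inl p => K r p
    | Sum.inr (Sum.inl za) => y (Sum.inr (r, za))
    | Sum.inr (Sum.inr kp) => sl r kp.1 kp.2
  have hL1 : Fintype.card (Arc n m) ≤ 2 ^ lg n m := by
    rw [card_arc]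
    have := size_le n m
    omega
  have hL2 : Fintype.card (Arc (n + 2 * m) m) ≤ 2 ^ (lg n m + 1) := by
    rw [card_arc, pow_succ]
    have := size_le n m
    omega
  have hcons : ∀ r, FD (2 * lg n m + 9) (cons r) := fun r =>
    (fd_validB _ _ _ _ hL1 hL2 _).and (fd_validB _ _ _ _ hL1 hL2 _)
  have hout : ∀ c r, FD (2 * lg n m + 9) (out c r) := by
    rintro (p | za | kp) r
    · exact FD.const _ _
    · exact FD.var _ _
    · exact FD.const _ _
  have hF : ∀ c : CO n m q, FD (6 * lg n m + 13)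
      (fun y => decide (∃ r, (selB (fun r => cons r y) r && out c r y) = true)) := fun c =>
    (fd_selB (Rn_le n m) cons hcons (out c) (hout c)).mono (by omega)
  have hst := Comp.stage hpar (by omega) hF
  refine ⟨_, hst, fun C x => ?_⟩
  set y0 : (LB n m ⊕ CI n m) → Bool := Sum.elim (lenc C x) (cnd (lenc C x)) with hy0
  have hval : ∀ (r : Fin (Rn n m)) (z : Bool), validB (K r) (fun p a => Sum.inl (Sum.inl (p, a)))
      (fun i => Sum.inl (Sum.inr i)) (fun a => Sum.inr (r, (z, a))) z y0 = true ↔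
      (cutC C (K r)).IsVal (ext x z) (fun a => y0 (Sum.inr (r, (z, a)))) := fun r z =>
    validB_iff _ _ _ _ (fun _ _ => rfl) (fun _ => rfl) z
  have hcv : ∀ r, cons r y0 = true ↔ ∀ z,
      (cutC C (K r)).IsVal (ext x z) (fun a => y0 (Sum.inr (r, (z, a)))) := by
    intro r
    change (_ && _) = true ↔ _
    rw [Bool.and_eq_true, hval, hval]
    constructor
    · rintro ⟨h1, h2⟩ z
      cases z
      · exact h1
      · exact h2
    · intro h
      exact ⟨h false, h true⟩
  have hex : ∃ r, cons r y0 = true := by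
    obtain ⟨r, hr⟩ := hK2 C x
    refine ⟨r, (hcv r).2 fun z => ?_⟩
    obtain ⟨v, hv⟩ := exists_val (cutC C (K r)) (ext x z)
    have h1 : (fun a => y0 (Sum.inr (r, (z, a)))) = v := by
      funext a
      have h2 := hB (cutC C (K r)) (ext x z) (hr z) v hv a
      rw [← h2]
      change B.level (fun b => (encG (K r) z a b).eval (lenc C x)) D0 o = _
      congr 1
      funext b
      exact encG_eval (K r) z a C x b
    rw [h1]
    exact hv
  obtain ⟨r1, h1, h2⟩ := selB_spec (fun r => cons r y0) hex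
  refine ⟨K r1, sl r1, hsl1 r1, hsl2 r1, hsl3 r1, fun p => ?_, fun k p => ?_, fun z v hv a => ?_⟩
  · exact h2 (fun r => out (Sum.inl p) r y0)
  · exact h2 (fun r => out (Sum.inr (Sum.inr (k, p))) r y0)
  · have h3 := h2 (fun r => out (Sum.inr (Sum.inl (z, a))) r y0)
    refine h3.trans ?_
    have h4 := ((hcv r1).1 h1 z).unique hv
    exact congrFun h4 a

/-- The cut evaluation. -/
theorem cutEval : ∃ c : ℕ, ∀ n m q : ℕ, 1 ≤ q → q ≤ n + 2 * m + 1 →
    ∃ (D W : ℕ) (f : (LB n m → Bool) → CO n m q → Bool), 1 ≤ D ∧ D ≤ c * lg n m ^ c * q ∧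
      W ≤ c * (n + 2 * m + 1) ^ c ∧ Comp (LB n m) W D f ∧
      ∀ (C : CompCircuit n m) (x : Fin n → Bool), CutOut C x q (f (lenc C x)) := by
  obtain ⟨c0, hM⟩ := masterI
  -- widths
  let S : ℕ × ℕ → ℕ := fun p => p.1 + 2 * p.2 + 1
  have hS : ∀ p, 1 ≤ S p := fun p => Nat.succ_le_succ (Nat.zero_le _)
  have hPn : PB S (fun p => p.1) := (PB.self hS).of_le (fun p => by simp only [S]; omega)
  have hPm : PB S (fun p => p.2) := (PB.self hS).of_le (fun p => by simp only [S]; omega)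
  have hPL : PB S (fun p => 2 ^ lg p.1 p.2) :=
    (PB.mul hS (PB.const hS 2) (PB.self hS)).of_le (fun p => le_size p.1 p.2)
  have hc : ∀ k, PB S (fun _ => k) := PB.const hS
  have hA : ∀ {f g : ℕ × ℕ → ℕ}, PB S f → PB S g → PB S (fun i => f i + g i) := PB.add hS
  have hMu : ∀ {f g : ℕ × ℕ → ℕ}, PB S f → PB S g → PB S (fun i => f i * g i) := PB.mul hS
  have hLB : PB S (fun p => 2 * p.2 * (p.1 + 2 * p.2) + p.1) :=
    hA (hMu (hMu (hc 2) hPm) (hA hPn (hMu (hc 2) hPm))) hPn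
  have hArc : PB S (fun p => p.1 + 2 * p.2 + 2 * p.2) :=
    hA (hA hPn (hMu (hc 2) hPm)) (hMu (hc 2) hPm)
  have hCI : PB S (fun p => (2 * p.2 * (p.1 + 2 * p.2) + p.1 + 1) *
      (2 * (p.1 + 2 * p.2 + 2 * p.2))) := hMu (hA hLB (hc 1)) (hMu (hc 2) hArc)
  have hbit : PB S (fun p => 2 * p.2 * (p.1 + 2 * p.2 + 2 * p.2) +
      (p.1 + 2 * p.2 + (p.1 + 2 * p.2 + 2 * p.2))) :=
    hA (hMu (hMu (hc 2) hPm) hArc) (hA (hA hPn (hMu (hc 2) hPm)) hArc)
  have hW0 : PB S (fun p => c0 * (p.1 + 2 * p.2 + 2 * p.2 + 1) ^ c0) :=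
    hMu (hc c0) (PB.pow hS (hA hArc (hc 1)) c0)
  have hCO : PB S (fun p => 2 * p.2 + (2 * (p.1 + 2 * p.2 + 2 * p.2) +
      16 * p.2 * (2 * p.2))) :=
    hA (hMu (hc 2) hPm) (hA (hMu (hc 2) hArc) (hMu (hMu (hc 16) hPm) (hMu (hc 2) hPm)))
  have hpw : PB S (fun p => (2 ^ lg p.1 p.2) ^ 6 * 2 ^ 13) := hMu (PB.pow hS hPL 6) (hc _)
  obtain ⟨cw, hcw⟩ := hA (hA (hMu (hc 2) (hA hLB (hMu hCI (hA (hA hbit hbit)
    (hA (hA hW0 (hc 1)) (hc 1)))))) (hA hLB hCI)) (hMu hCO hpw)
  obtain ⟨c, hcc1, hcc2⟩ : ∃ c : ℕ, cw ≤ c ∧ c0 * 2 ^ c0 * 64 + c0 + 22 ≤ c :=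
    ⟨cw + (c0 * 2 ^ c0 * 64 + c0 + 22), by omega, by omega⟩
  refine ⟨c, fun n m q hq hqN => ?_⟩
  have hJ1 : 1 ≤ Jq (lg (n + 2 * m) m) q :=
    Nat.mul_pos hq (Nat.mul_pos (by norm_num) (lg_pos _ _))
  obtain ⟨D0, B, o, hD0, hB⟩ := hM (n + 2 * m) m (Jq (lg (n + 2 * m) m) q) hJ1 (J_le n m q hqN)
  obtain ⟨f, hf1, hf2⟩ := cutEval_one n m q hq hqN B o hB
  refine ⟨_, _, f, ?_, ?_, ?_, hf1, hf2⟩
  · omega
  · have hl1 := lg_pos n m
    have hl2 := lg_double n m
    set l := lg n m with hl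
    have h1 : lg (n + 2 * m) m ≤ 2 * l := by omega
    have h2 : D0 ≤ c0 * 2 ^ c0 * 64 * l ^ (c0 + 1) * q := by
      refine hD0.trans ?_
      calc c0 * lg (n + 2 * m) m ^ c0 * Jq (lg (n + 2 * m) m) q
          ≤ c0 * (2 * l) ^ c0 * (q * (32 * (2 * l))) := by
            refine Nat.mul_le_mul (Nat.mul_le_mul_left _ (Nat.pow_le_pow_left h1 _)) ?_
            exact Nat.mul_le_mul_left _ (Nat.mul_le_mul_left _ h1)
        _ = c0 * 2 ^ c0 * 64 * l ^ (c0 + 1) * q := by rw [mul_pow, pow_succ]; ring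
    have h3 : l ≤ l ^ (c0 + 1) := Nat.le_self_pow (by omega) l
    have h4 : 1 ≤ l ^ (c0 + 1) := Nat.one_le_pow _ _ hl1
    have h5 : 0 + 1 + (D0 + 1) + (6 * l + 13 + 1) ≤ (c0 * 2 ^ c0 * 64 + 22) * l ^ (c0 + 1) * q := by
      have h6 : 0 + 1 + 1 + (6 * l + 13 + 1) ≤ 22 * l ^ (c0 + 1) * q := by
        calc 0 + 1 + 1 + (6 * l + 13 + 1) ≤ 22 * l ^ (c0 + 1) * 1 := by omega
          _ ≤ _ := Nat.mul_le_mul_left _ hq
      calc 0 + 1 + (D0 + 1) + (6 * l + 13 + 1) = D0 + (0 + 1 + 1 + (6 * l + 13 + 1)) := by ring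
        _ ≤ c0 * 2 ^ c0 * 64 * l ^ (c0 + 1) * q + 22 * l ^ (c0 + 1) * q := Nat.add_le_add h2 h6
        _ = _ := by ring
    refine h5.trans (Nat.mul_le_mul_right _ (Nat.mul_le_mul (by omega) ?_))
    exact Nat.pow_le_pow_right hl1 (by omega)
  · have h1 := hcw (n, m)
    simp only [S] at h1
    refine le_trans ?_ (h1.trans (Nat.mul_le_mul hcc1
      (Nat.pow_le_pow_right (Nat.succ_le_succ (Nat.zero_le _)) hcc1)))
    have e1 : Fintype.card (LB n m) = 2 * m * (n + 2 * m) + n := card_LB n m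
    have e2 : Fintype.card (CI n m) = (2 * m * (n + 2 * m) + n + 1) *
        (2 * (n + 2 * m + 2 * m)) := by
      rw [Fintype.card_prod, Fintype.card_prod, Fintype.card_bool, card_arc, Fintype.card_fin]
    have e3 : Fintype.card (Bit (n + 2 * m) m) = 2 * m * (n + 2 * m + 2 * m) +
      (n + 2 * m + (n + 2 * m + 2 * m)) := card_bit _ _
    have e4 : Fintype.card (CO n m q) ≤ 2 * m + (2 * (n + 2 * m + 2 * m) +
        16 * m * (2 * m)) := by
      have e5 : Fintype.card (CO n m q) = 2 * m + (2 * (n + 2 * m + 2 * m) +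
          16 * m / q ^ 2 * (2 * m)) := by
        simp only [Fintype.card_sum, Fintype.card_prod, Fintype.card_bool, Fintype.card_fin]
        ring
      rw [e5]
      have := Nat.mul_le_mul_right (2 * m) (Nat.div_le_self (16 * m) (q ^ 2))
      omega
    have e6 : 2 ^ (6 * lg n m + 13) = (2 ^ lg n m) ^ 6 * 2 ^ 13 := by
      rw [← pow_mul, ← pow_add, mul_comm]
    rw [e1, e2, e3, e6, Fintype.card_unit]
    exact Nat.add_le_add_left (Nat.mul_le_mul_right _ e4) _

end Pool.Agent.LibCC88
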