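import Pool.Agent.LibCC88.GoodCuts

/-!
For every size a short list of cut sets contains a good one for every instance.
-/

namespace Pool.Agent.LibCC88

open Pool.Agent.LibCC Pool.Agent.LibCCV Pool.Agent.LibCCS Pool.Agent.LibCC67 Pool.Agent.LibCC89 Finset

variable {n m : ℕ}

open Classical in
/-- If every element of `Z` is bad for at most half of `Ω`, a short list is bad for no
element. -/
theorem hitting {Z Ω : Type} [Fintype Ω] [Nonempty Ω] (bad : Z → Ω → Prop)
    (h : ∀ z, 2 * (univ.filter (fun ω => bad z ω)).card ≤ Fintype.card Ω) :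
    ∀ (R : ℕ) (S : Finset Z), S.card < 2 ^ R → ∃ L : Fin R → Ω, ∀ z ∈ S, ∃ r, ¬ bad z (L r) := by
  intro R
  induction R with
  | zero =>
    intro S hS
    have h1 : S = ∅ := by
      rw [← Finset.card_eq_zero]
      simpa using hS
    subst h1
    exact ⟨fun r => r.elim0, fun z hz => by simp at hz⟩
  | succ R ih =>
    intro S hS
    have h1 : ∃ ω : Ω, 2 * (S.filter (fun z => bad z ω)).card ≤ S.card := by
      by_contra hc
      push Not at hc
      have h2 : ∑ ω : Ω, 2 * (S.filter (fun z => bad z ω)).card =
          ∑ z ∈ S, 2 * (univ.filter (fun ω => bad z ω)).card := by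
        rw [← Finset.mul_sum, ← Finset.mul_sum]
        congr 1
        simp only [Finset.card_filter]
        exact Finset.sum_comm
      have h3 : ∑ z ∈ S, 2 * (univ.filter (fun ω => bad z ω)).card ≤
          ∑ z ∈ S, Fintype.card Ω := Finset.sum_le_sum (fun z _ => h z)
      have h4 : ∑ ω : Ω, S.card < ∑ ω : Ω, 2 * (S.filter (fun z => bad z ω)).card :=
        Finset.sum_lt_sum_of_nonempty univ_nonempty (fun ω _ => hc ω)
      rw [sum_const, smul_eq_mul] at h3 h4
      rw [card_univ] at h4
      rw [h2] at h4
      have h5 : Fintype.card Ω * S.card = S.card * Fintype.card Ω := mul_comm _ _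
      omega
    obtain ⟨ω, hω⟩ := h1
    obtain ⟨L, hL⟩ := ih (S.filter (fun z => bad z ω)) (by rw [pow_succ] at hS; omega)
    refine ⟨Fin.cons ω L, fun z hz => ?_⟩
    by_cases hb : bad z ω
    · obtain ⟨r, hr⟩ := hL z (mem_filter.2 ⟨hz, hb⟩)
      exact ⟨r.succ, by simpa using hr⟩
    · exact ⟨0, by simpa using hb⟩

/-- The positions of the bits describing the connections and the source values. -/
abbrev LB (n m : ℕ) : Type := ((Fin m × Bool) × Arc n m) ⊕ Fin n

/-- The bits describing the connections and the source values. -/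
def lenc (C : CompCircuit n m) (x : Fin n → Bool) : LB n m → Bool
  | Sum.inl p => decide (C.inp p.1 = p.2)
  | Sum.inr i => x i

theorem lenc_inj {C C' : CompCircuit n m} {x x' : Fin n → Bool} (h : lenc C x = lenc C' x') :
    C = C' ∧ x = x' := by
  constructor
  · have h1 : C.inp = C'.inp := by
      funext p
      have h2 := congrFun h (Sum.inl (p, C.inp p))
      simp only [lenc, decide_true] at h2
      exact (of_decide_eq_true h2.symm).symm
    obtain ⟨i, a, b⟩ := C
    obtain ⟨i', a', b'⟩ := C'
    simp only at h1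
    subst h1
    rfl
  · funext i
    exact congrFun h (Sum.inr i)

theorem card_LB (n m : ℕ) : Fintype.card (LB n m) = 2 * m * (n + 2 * m) + n := by
  simp only [LB, Fintype.card_sum, Fintype.card_prod, Fintype.card_fin, Fintype.card_bool]
  ring

/-- The source values of the cut circuit: the private sources of the ports carry `z`. -/
def ext (x : Fin n → Bool) (z : Bool) (i : Fin (n + 2 * m)) : Bool :=
  if h : (i : ℕ) < n then x ⟨i, h⟩ else z

open Classical in
/-- Few ports are cut, for all but an eighth of the cut sets. -/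
theorem markov (m : ℕ) {Q : ℕ} (c1 : Fin Q) :
    ((univ.filter (fun ω : Fin m × Bool → Fin Q =>
      16 * m < Q * (univ.filter (fun p => kap c1 ω p = true)).card)).card : ℝ) ≤
      (Fintype.card (Fin m × Bool → Fin Q) : ℝ) / 8 := by
  rcases Nat.eq_zero_or_pos m with hm | hm
  · subst hm
    have h1 : univ.filter (fun ω : Fin 0 × Bool → Fin Q =>
      16 * 0 < Q * (univ.filter (fun p => kap c1 ω p = true)).card) = ∅ := by
      rw [Finset.filter_eq_empty_iff]
      intro ω _ h
      have h2 : (univ.filter (fun p => kap c1 ω p = true)) = ∅ := by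
        rw [Finset.filter_eq_empty_iff]
        rintro ⟨p, _⟩
        exact p.elim0
      rw [h2] at h
      simp at h
    rw [h1]
    simp
  · have hQ0 : 0 < Q := lt_of_le_of_lt (Nat.zero_le _) c1.isLt
    have hQ : (0 : ℝ) < Q := by exact_mod_cast hQ0
    set c : ℝ := (Fintype.card (Fin m × Bool → Fin Q) : ℝ) with hc
    have h1 : ∑ ω : Fin m × Bool → Fin Q,
        ((univ.filter (fun p => kap c1 ω p = true)).card : ℝ) = 2 * m * (c / Q) := by
      simp only [Finset.card_filter]
      push_cast
      rw [Finset.sum_comm]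
      have h2 : ∀ p : Fin m × Bool, ∑ ω : Fin m × Bool → Fin Q,
          (if kap c1 ω p = true then (1 : ℝ) else 0) = c / Q := by
        intro p
        have h3 := sum_cut_exp (F := fun _ => (0 : ℝ)) (i := p) c1 (fun _ _ => rfl) 1
        simp only [sum_const_zero, mul_zero, zero_add, one_mul] at h3
        rw [hc, ← h3]
        apply Finset.sum_congr rfl
        intro ω _
        simp [kap]
      rw [Finset.sum_congr rfl (fun p _ => h2 p), sum_const, nsmul_eq_mul, card_univ]
      simp only [Fintype.card_prod, Fintype.card_fin, Fintype.card_bool]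
      push_cast
      ring
    set S := univ.filter (fun ω : Fin m × Bool → Fin Q =>
      16 * m < Q * (univ.filter (fun p => kap c1 ω p = true)).card) with hS
    have h2 : ∑ ω ∈ S, (16 * m / Q : ℝ) ≤ ∑ ω : Fin m × Bool → Fin Q,
        ((univ.filter (fun p => kap c1 ω p = true)).card : ℝ) := by
      refine le_trans (Finset.sum_le_sum (fun ω hω => ?_))
        (Finset.sum_le_sum_of_subset_of_nonneg (Finset.subset_univ S) (fun _ _ _ => by positivity))
      rw [hS, mem_filter] at hω
      rw [div_le_iff₀ hQ]
      have h3 := hω.2.le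
      rw [mul_comm Q] at h3
      exact_mod_cast h3
    rw [h1, sum_const, nsmul_eq_mul] at h2
    have hm' : (0 : ℝ) < m := by exact_mod_cast hm
    have h4 : (S.card : ℝ) * (16 * m / Q) = (S.card : ℝ) * 16 * (m / Q) := by ring
    have h5 : 2 * m * (c / Q) = (2 * c) * (m / Q) := by ring
    rw [h4, h5] at h2
    have h6 := le_of_mul_le_mul_right h2 (by positivity)
    linarith

open Classical in
/-- A short list of cut sets with a good one for every instance. -/
theorem good_list (n m q : ℕ) (hq : 1 ≤ q) (hqN : q ≤ n + 2 * m + 1) :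
    ∃ K : Fin (2 * m * (n + 2 * m) + n + 1) → Fin m × Bool → Bool,
      (∀ r, q ^ 2 * (univ.filter (fun p => K r p = true)).card ≤ 16 * m) ∧
      ∀ (C : CompCircuit n m) (x : Fin n → Bool), ∃ r, ∀ z,
        GoodI (cutC C (K r)) (Jq (lg (n + 2 * m) m) q) (lg (n + 2 * m) m) (ext x z) := by
  have hQ0 : 0 < q ^ 2 := by positivity
  let c1 : Fin (q ^ 2) := ⟨0, hQ0⟩
  have : Nonempty (Fin (q ^ 2)) := ⟨c1⟩
  set l := lg (n + 2 * m) m with hl
  have hl1 : 1 ≤ l := lg_pos _ _
  have hsz : n + 2 * m + 2 * m + 1 ≤ 2 ^ l := size_le (n + 2 * m) m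
  let big : (Fin m × Bool → Fin (q ^ 2)) → Prop := fun ω =>
    16 * m < q ^ 2 * (univ.filter (fun p => kap c1 ω p = true)).card
  let bad : (LB n m → Bool) → (Fin m × Bool → Fin (q ^ 2)) → Prop := fun y ω =>
    ∃ (C : CompCircuit n m) (x : Fin n → Bool), lenc C x = y ∧
      (¬ (∀ z, GoodI (cutC C (kap c1 ω)) (Jq l q) l (ext x z)) ∨ big ω)
  have hbad : ∀ y, 2 * (univ.filter (fun ω => bad y ω)).card ≤
      Fintype.card (Fin m × Bool → Fin (q ^ 2)) := by
    intro y
    by_cases hy : ∃ (C : CompCircuit n m) (x : Fin n → Bool), lenc C x = y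
    · obtain ⟨C, x, rfl⟩ := hy
      have h1 := good_cuts C hq c1 hl1 (by omega) (hqN.trans (by omega)) (ext x false)
      have h2 := good_cuts C hq c1 hl1 (by omega) (hqN.trans (by omega)) (ext x true)
      have h3 := markov m c1
      have hsub : univ.filter (fun ω => bad (lenc C x) ω) ⊆
          (univ.filter (fun ω => ¬ GoodI (cutC C (kap c1 ω)) (Jq l q) l (ext x false)) ∪
          univ.filter (fun ω => ¬ GoodI (cutC C (kap c1 ω)) (Jq l q) l (ext x true))) ∪
          univ.filter (fun ω : Fin m × Bool → Fin (q ^ 2) =>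
            16 * m < q ^ 2 * (univ.filter (fun p => kap c1 ω p = true)).card) := by
        intro ω hω
        rw [mem_filter] at hω
        obtain ⟨-, C', x', hC', hb⟩ := hω
        obtain ⟨rfl, rfl⟩ := lenc_inj hC'
        rw [mem_union, mem_union, mem_filter, mem_filter, mem_filter]
        rcases hb with hb | hb
        · left
          rw [not_forall] at hb
          obtain ⟨z, hz⟩ := hb
          cases z
          · exact Or.inl ⟨mem_univ _, hz⟩
          · exact Or.inr ⟨mem_univ _, hz⟩
        · exact Or.inr ⟨mem_univ _, hb⟩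
      have h4 := (Finset.card_le_card hsub).trans ((Finset.card_union_le _ _).trans
        (Nat.add_le_add_right (Finset.card_union_le _ _) _))
      have h5 : ((univ.filter (fun ω => bad (lenc C x) ω)).card : ℝ) ≤
          (Fintype.card (Fin m × Bool → Fin (q ^ 2)) : ℝ) / 8 +
          (Fintype.card (Fin m × Bool → Fin (q ^ 2)) : ℝ) / 8 +
          (Fintype.card (Fin m × Bool → Fin (q ^ 2)) : ℝ) / 8 := by
        have h4' : ((univ.filter (fun ω => bad (lenc C x) ω)).card : ℝ) ≤
            ((univ.filter (fun ω : Fin m × Bool → Fin (q ^ 2) =>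
              ¬ GoodI (cutC C (kap c1 ω)) (Jq l q) l (ext x false))).card : ℝ) +
            ((univ.filter (fun ω : Fin m × Bool → Fin (q ^ 2) =>
              ¬ GoodI (cutC C (kap c1 ω)) (Jq l q) l (ext x true))).card : ℝ) +
            ((univ.filter (fun ω : Fin m × Bool → Fin (q ^ 2) =>
            16 * m < q ^ 2 * (univ.filter (fun p => kap c1 ω p = true)).card)).card : ℝ) := by
          exact_mod_cast h4
        exact h4'.trans (add_le_add (add_le_add h1 h2) h3)
      have h6 : (0 : ℝ) ≤ (Fintype.card (Fin m × Bool → Fin (q ^ 2)) : ℝ) := Nat.cast_nonneg _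
      have h7 : (2 * (univ.filter (fun ω => bad (lenc C x) ω)).card : ℝ) ≤
          (Fintype.card (Fin m × Bool → Fin (q ^ 2)) : ℝ) := by linarith
      exact_mod_cast h7
    · have h1 : univ.filter (fun ω => bad y ω) = ∅ := by
        rw [Finset.filter_eq_empty_iff]
        rintro ω _ ⟨C, x, h, -⟩
        exact hy ⟨C, x, h⟩
      rw [h1]
      simp
  obtain ⟨L, hL⟩ := hitting bad hbad (2 * m * (n + 2 * m) + n + 1) univ (by
    rw [card_univ, Fintype.card_fun, Fintype.card_bool, card_LB]
    exact Nat.pow_lt_pow_right (by norm_num) (Nat.lt_succ_self _))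
  refine ⟨fun r => if big (L r) then fun _ => false else kap c1 (L r), fun r => ?_, fun C x => ?_⟩
  · by_cases hb : big (L r)
    · simp [hb]
    · simp only [if_neg hb]
      exact not_lt.1 hb
  · obtain ⟨r, hr⟩ := hL (lenc C x) (mem_univ _)
    have h1 : (∀ z, GoodI (cutC C (kap c1 (L r))) (Jq l q) l (ext x z)) ∧ ¬ big (L r) := by
      constructor
      · by_contra hc
        exact hr ⟨C, x, rfl, Or.inl hc⟩
      · intro hc
        exact hr ⟨C, x, rfl, Or.inr hc⟩
    refine ⟨r, fun z => ?_⟩
    simp only [if_neg h1.2]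
    exact h1.1 z

end Pool.Agent.LibCC88
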