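import Pool.Agent.LibCC88.Comp
import Pool.Agent.LibCC88.Hit

/-!
Formulas: instance bits of a cut circuit, check of a labelling, selection of the first
consistent candidate.
-/

namespace Pool.Agent.LibCC88

open Pool.Agent.LibCC Pool.Agent.LibCCV Pool.Agent.LibCCS Pool.Agent.LibCC67 Pool.Agent.LibCC89 Finset

variable {n m : ℕ}

/-- The gates computing the instance bits of the cut circuit. -/
noncomputable def encG (K : Fin m × Bool → Bool) (z : Bool) (a' : Arc (n + 2 * m) m) :
    Bit (n + 2 * m) m → BGate (LB n m)
  | .link p a => if K p = true then .const (decide (Sum.inl (pv p) = a)) else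
      open Classical in
      if h : ∃ a0 : Arc n m, up a0 = a then .wire (Sum.inl (p, h.choose)) else .const false
  | .src i => if h : (i : ℕ) < n then .wire (Sum.inr ⟨i, h⟩) else .const z
  | .goal a => .const (decide (a' = a))

theorem encG_eval (K : Fin m × Bool → Bool) (z : Bool) (a' : Arc (n + 2 * m) m)
    (C : CompCircuit n m) (x : Fin n → Bool) (b : Bit (n + 2 * m) m) :
    (encG K z a' b).eval (lenc C x) = encode (cutC C K) (ext x z) a' b := by
  cases b with
  | link p a =>
    simp only [encG, encode, cutC_inp]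
    by_cases hK : K p = true
    · simp only [if_pos hK]
      rfl
    · simp only [if_neg hK]
      by_cases h : ∃ a0 : Arc n m, up a0 = a
      · rw [dif_pos h]
        have h1 := h.choose_spec
        change decide (C.inp p = h.choose) = decide (up (C.inp p) = a)
        rw [decide_eq_decide]
        constructor
        · intro h2
          rw [h2, h1]
        · intro h2
          exact up_inj (h2.trans h1.symm)
      · rw [dif_neg h]
        change false = decide (up (C.inp p) = a)
        symm
        rw [decide_eq_false_iff_not]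
        exact fun h2 => h ⟨_, h2⟩
  | src i =>
    simp only [encG, encode, ext]
    by_cases h : (i : ℕ) < n
    · rw [dif_pos h, dif_pos h]
      rfl
    · rw [dif_neg h, dif_neg h]
      rfl
  | goal a => rfl

/-- Equality of bits. -/
def beqB (a b : Bool) : Bool := (a && b) || (!a && !b)

theorem beqB_iff (a b : Bool) : beqB a b = true ↔ a = b := by
  cases a <;> cases b <;> simp [beqB]

theorem FD.beqB {Y : Type} {k : ℕ} {f g : (Y → Bool) → Bool} (hf : FD k f) (hg : FD k g) :
    FD (k + 3) (fun y => beqB (f y) (g y)) :=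
  ((hf.and hg).succ).or ((hf.neg).and (hg.neg))

theorem FD.forall {Y : Type} {k : ℕ} (j : ℕ) {ι : Type} [Fintype ι] (hι : Fintype.card ι ≤ 2 ^ j)
    (g : ι → (Y → Bool) → Bool) (h : ∀ i, FD k (g i)) :
    FD (k + 1 + j + 1) (fun x => decide (∀ i, g i x = true)) := by
  classical
  have h1 := (FD.exists j hι (fun i x => !(g i x)) (fun i => (h i).neg)).neg
  refine h1.congr (fun x => ?_)
  rw [Bool.eq_iff_iff]
  simp

theorem FD.comb {Y : Type} {k : ℕ} {f g : (Y → Bool) → Bool} (c : Bool) (hf : FD k f)
    (hg : FD k g) : FD (k + 1) (fun y => comb c (f y) (g y)) := by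
  cases c
  · exact (hf.and hg).congr (fun y => rfl)
  · exact (hf.or hg).congr (fun y => rfl)

section check

variable {Y : Type} (K : Fin m × Bool → Bool) (lk : Fin m × Bool → Arc n m → Y) (xs : Fin n → Y)
  (ws : Arc (n + 2 * m) m → Y)

/-- The value read by a port. -/
def inpB (p : Fin m × Bool) (y : Y → Bool) : Bool :=
  if K p = true then y (ws (Sum.inl (pv p))) else
    decide (∃ a : Arc n m, (y (lk p a) && y (ws (up a))) = true)

/-- Check of one arc. -/
def chkB (z : Bool) (a' : Arc (n + 2 * m) m) (y : Y → Bool) : Bool :=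
  match a' with
  | Sum.inl i => beqB (y (ws (Sum.inl i))) (if h : (i : ℕ) < n then y (xs ⟨i, h⟩) else z)
  | Sum.inr (g, c) => beqB (y (ws (Sum.inr (g, c))))
      (comb c (inpB K lk ws (g, false) y) (inpB K lk ws (g, true) y))

/-- Check of a labelling. -/
def validB (z : Bool) (y : Y → Bool) : Bool :=
  decide (∀ a', chkB K lk xs ws z a' y = true)

theorem fd_inpB {L : ℕ} (hL : Fintype.card (Arc n m) ≤ 2 ^ L) (p : Fin m × Bool) :
    FD (1 + L) (inpB K lk ws p) := by
  unfold inpB
  by_cases hK : K p = true
  · simp only [if_pos hK]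
    exact FD.var _ _
  · simp only [if_neg hK]
    exact FD.exists (k := 1) L hL (fun a y => y (lk p a) && y (ws (up a)))
      (fun _ => (FD.var 0 _).and (FD.var 0 _))

theorem fd_chkB {L : ℕ} (hL : Fintype.card (Arc n m) ≤ 2 ^ L) (z : Bool)
    (a' : Arc (n + 2 * m) m) : FD (L + 5) (chkB K lk xs ws z a') := by
  rcases a' with i | ⟨g, c⟩
  · change FD (L + 5) (fun y => beqB (y (ws (Sum.inl i)))
      (if h : (i : ℕ) < n then y (xs ⟨i, h⟩) else z))
    have h1 : FD 0 (fun y : Y → Bool => if h : (i : ℕ) < n then y (xs ⟨i, h⟩) else z) := by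
      by_cases h : (i : ℕ) < n
      · simp only [dif_pos h]
        exact FD.var _ _
      · simp only [dif_neg h]
        exact FD.const _ _
    exact (FD.beqB (FD.var 0 _) h1).mono (by omega)
  · change FD (L + 5) (fun y => beqB (y (ws (Sum.inr (g, c))))
      (comb c (inpB K lk ws (g, false) y) (inpB K lk ws (g, true) y)))
    have h1 := FD.comb c (fd_inpB K lk ws hL (g, false)) (fd_inpB K lk ws hL (g, true))
    exact (FD.beqB (FD.var _ _) h1).mono (by omega)

theorem fd_validB {L : ℕ} (hL : Fintype.card (Arc n m) ≤ 2 ^ L)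
    (hL' : Fintype.card (Arc (n + 2 * m) m) ≤ 2 ^ (L + 1)) (z : Bool) :
    FD (2 * L + 8) (validB K lk xs ws z) :=
  (FD.forall (L + 1) hL' _ (fd_chkB K lk xs ws hL z)).mono (by omega)

theorem validB_iff {C : CompCircuit n m} {x : Fin n → Bool} {y : Y → Bool}
    (hl : ∀ p a, y (lk p a) = decide (C.inp p = a)) (hx : ∀ i, y (xs i) = x i) (z : Bool) :
    validB K lk xs ws z y = true ↔
      (cutC C K).IsVal (ext x z) (fun a' => y (ws a')) := by
  have hin : ∀ p, inpB K lk ws p y = y (ws ((cutC C K).inp p)) := by
    intro p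
    unfold inpB
    rw [cutC_inp]
    by_cases hK : K p = true
    · rw [if_pos hK, if_pos hK]
    · rw [if_neg hK, if_neg hK, Bool.eq_iff_iff, decide_eq_true_iff]
      constructor
      · rintro ⟨a, ha⟩
        rw [Bool.and_eq_true, hl, decide_eq_true_iff] at ha
        rw [ha.1]
        exact ha.2
      · intro h
        exact ⟨C.inp p, by rw [hl, h]; simp⟩
  have hext : ∀ i : Fin (n + 2 * m),
      (if h : (i : ℕ) < n then y (xs ⟨i, h⟩) else z) = ext x z i := by
    intro i
    unfold ext
    by_cases h : (i : ℕ) < n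
    · rw [dif_pos h, dif_pos h, hx]
    · rw [dif_neg h, dif_neg h]
  unfold validB
  rw [decide_eq_true_iff]
  constructor
  · intro h
    refine ⟨fun i => ?_, fun g => ?_, fun g => ?_⟩
    · have := h (Sum.inl i)
      simp only [chkB, beqB_iff] at this
      rw [this, hext]
    · have := h (Sum.inr (g, false))
      simp only [chkB, beqB_iff] at this
      rw [this, hin, hin]
      rfl
    · have := h (Sum.inr (g, true))
      simp only [chkB, beqB_iff] at this
      rw [this, hin, hin]
      rfl
  · intro h a'
    rcases a' with i | ⟨g, c⟩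
    · simp only [chkB, beqB_iff]
      rw [hext]
      exact h.source i
    · simp only [chkB, beqB_iff]
      rw [hin, hin]
      cases c
      · exact h.conj g
      · exact h.disj g

end check

/-! ### Selection -/

/-- The first consistent index. -/
def selB {R : ℕ} (cons : Fin R → Bool) (r : Fin R) : Bool :=
  cons r && !(decide (∃ r' : Fin R, (decide (r' < r) && cons r') = true))

theorem selB_spec {R : ℕ} (cons : Fin R → Bool) (h : ∃ r, cons r = true) :
    ∃ r1, cons r1 = true ∧ ∀ f : Fin R → Bool, decide (∃ r, (selB cons r && f r) = true) = f r1 := by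
  classical
  obtain ⟨r1, h1, h2⟩ := Finset.exists_min_image (univ.filter (fun r => cons r = true)) id
    (by obtain ⟨r, hr⟩ := h; exact ⟨r, by simpa using hr⟩)
  rw [mem_filter] at h1
  have h3 : ∀ r, selB cons r = true ↔ r = r1 := by
    intro r
    simp only [selB, Bool.and_eq_true, Bool.not_eq_true', decide_eq_false_iff_not, not_exists,
      decide_eq_true_eq, not_and]
    constructor
    · rintro ⟨hr, h4⟩
      have h5 := h2 r (mem_filter.2 ⟨mem_univ _, hr⟩)
      simp only [id] at h5
      by_contra hne
      exact h4 r1 (lt_of_le_of_ne h5 (fun h => hne h.symm)) h1.2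
    · rintro rfl
      refine ⟨h1.2, fun r' hr' hc => ?_⟩
      have h5 := h2 r' (mem_filter.2 ⟨mem_univ _, hc⟩)
      simp only [id] at h5
      exact absurd hr' (not_lt.2 h5)
  refine ⟨r1, h1.2, fun f => ?_⟩
  rw [Bool.eq_iff_iff, decide_eq_true_iff]
  constructor
  · rintro ⟨r, hr⟩
    rw [Bool.and_eq_true, h3] at hr
    rw [← hr.1]
    exact hr.2
  · intro hf
    exact ⟨r1, by rw [Bool.and_eq_true, h3]; exact ⟨rfl, hf⟩⟩

theorem fd_selB {Y : Type} {R k j : ℕ} (hR : R ≤ 2 ^ j) (cons : Fin R → (Y → Bool) → Bool)
    (h : ∀ r, FD k (cons r)) (f : Fin R → (Y → Bool) → Bool) (hf : ∀ r, FD k (f r)) :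
    FD (k + 2 * j + 4) (fun y => decide (∃ r, (selB (fun r => cons r y) r && f r y) = true)) := by
  have h1 : ∀ r, FD (k + 1 + j + 1 + 1) (fun y => selB (fun r => cons r y) r) := by
    intro r
    have h2 : FD (k + 1 + j) (fun y => decide (∃ r' : Fin R, (decide (r' < r) && cons r' y) = true)) :=
      (FD.exists j (by simpa using hR) (fun r' y => decide (r' < r) && cons r' y)
        (fun r' => (FD.const k _).and (h r'))).congr (fun y => by congr)
    exact ((h r).mono (by omega)).and h2.neg
  have h3 : FD (k + 1 + j + 1 + 1 + 1 + j)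
      (fun y => decide (∃ r, (selB (fun r => cons r y) r && f r y) = true)) :=
    (FD.exists j (by simpa using hR) (fun r y => selB (fun r => cons r y) r && f r y)
      (fun r => (h1 r).and ((hf r).mono (by omega)))).congr (fun y => by congr)
  exact h3.mono (by omega)

end Pool.Agent.LibCC88
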