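import Pool.Agent.LibCC89.Master

/-!
The machine needs the drift bound only for finitely many pairs of states of the given instance.
-/

namespace Pool.Agent.LibCC88

open Pool.Agent.LibCC Pool.Agent.LibCCV Pool.Agent.LibCCS Pool.Agent.LibCC67 Pool.Agent.LibCC89 Finset

variable {n m : ℕ}

/-- The states at the temperatures `p ≤ p'` differ by at most `(p' - p) * J`. -/
def PairOK (C : CompCircuit n m) (p p' : ℝ) (κ : Arc n m → ℝ) (c0 J : ℝ) : Prop :=
  ∀ x x' : Arc n m → ℝ, Sol C p κ c0 x → Sol C p' κ c0 x' → ∀ e, |x' e - x e| ≤ (p' - p) * J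

/-- Source values of the instance. -/
noncomputable def kb (b : Fin n → Bool) : Arc n m → ℝ
  | Sum.inl i => b2r (b i)
  | Sum.inr _ => 0

/-- The drift bounds used by the machine. -/
structure GoodI (C : CompCircuit n m) (J L : ℕ) (b : Fin n → Bool) : Prop where
  heat : ∀ j, j < n1 J L → PairOK C (pj J L j) (pj J L (j + 1)) (fun _ => 0) (cc J L) J
  zero : ∀ j, j ≤ n1 J L → PairOK C (pj J L 0) (pj J L j) (fun _ => 0) (cc J L) J
  last : PairOK C 0 (pj J L (Hn J L)) (kb b) (cc J L) J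

theorem GoodI.zero' {C : CompCircuit n m} {J L : ℕ} {b : Fin n → Bool} (h : GoodI C J L b)
    (j : ℕ) : PairOK C (pj J L 0) (pj J L j) (fun _ => 0) (cc J L) J := by
  rcases Nat.le_total j (n1 J L) with h1 | h1
  · exact h.zero j h1
  · have h2 := h.zero (n1 J L) le_rfl
    rw [pj_late (le_refl (n1 J L))] at h2
    rw [pj_late h1]
    exact h2

theorem kj_zero {J L : ℕ} (b : Fin n → Bool) {j : ℕ} (hj : j ≤ n1 J L) :
    kj (m := m) J L b j = fun _ => 0 := by
  funext a
  rcases a with i | a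
  · change aj J L j * b2r (b i) = 0
    rw [aj_early hj, zero_mul]
  · rfl

theorem kj_last {J L : ℕ} (hJ1 : 1 ≤ J) (b : Fin n → Bool) :
    kj (m := m) J L b (Hn J L) = kb b := by
  funext a
  rcases a with i | a
  · change aj J L (Hn J L) * b2r (b i) = b2r (b i)
    rw [aj_last hJ1, one_mul]
  · rfl

/-- Comparison of the last state with the Boolean run. -/
theorem near_bool {C : CompCircuit n m} {J L : ℕ} {b : Fin n → Bool} {x : Arc n m → ℝ}
    (h : Sol C (pj J L (Hn J L)) (kb b) (cc J L) x) {v : Arc n m → Bool} (hv : C.IsVal b v)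
    (hJ : GoodI C J L b) (e : Arc n m) :
    |x e - b2r (v e)| ≤ pj J L (Hn J L) * J + m * |cc J L| / 2 := by
  obtain ⟨y, hy⟩ := exists_sol C 0 (kb b) (cc J L)
  have h1 := hJ.last y x hy h e
  have h2 := sol_lip le_rfl (sol_bool hv) hy (r := 0) (fun i => by
    have := hv.source i
    change |b2r (b i) - b2r (v (Sum.inl i))| ≤ 0
    rw [this]
    simp) e
  have h3 : x e - b2r (v e) = (x e - y e) + (y e - b2r (v e)) := by ring
  rw [h3]
  refine (abs_add_le _ _).trans ?_
  rw [sub_zero] at h1 h2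
  linarith

/-- One step changes every arc by little. -/
theorem traj_step {C : CompCircuit n m} {b : Fin n → Bool} {J L : ℕ}
    {x : ℕ → Arc n m → ℝ} (h : Traj C b J L x) (hJ : GoodI C J L b) (hJ1 : 1 ≤ J)
    (j : ℕ) (e : Arc n m) : |x (j + 1) e - x j e| ≤ pj J L (j + 1) / 40 := by
  have hT := Tq_pos hJ1
  have hTJ : (Tq J : ℝ) = 320 * J := by
    unfold Tq
    push_cast
    ring
  rcases Nat.lt_or_ge j (n1 J L) with hj | hj
  · -- heating
    have h1 := h j
    have h2 := h (j + 1)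
    rw [kj_zero b hj.le] at h1
    rw [kj_zero b (Nat.succ_le_of_lt hj)] at h2
    have hp := pj_succ (L := L) hJ1 hj
    have h3 := hJ.heat j hj _ _ h1 h2 e
    refine h3.trans ?_
    have h4 : pj J L (j + 1) - pj J L j = pj J L j / (Tq J : ℝ) := by
      rw [hp]
      ring
    have h5 : pj J L j ≤ pj J L (j + 1) := pj_mono hJ1 (Nat.le_succ j)
    have h6 : (J : ℝ) = (Tq J : ℝ) / 320 := by
      rw [hTJ]
      ring
    rw [h4, h6, div_mul_div_comm, mul_comm (pj J L j), mul_div_mul_left _ _ hT.ne']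
    have := pj_pos (L := L) hJ1 j
    linarith
  · -- ramp
    have h1 := h j
    have h2 := h (j + 1)
    unfold Traj at h
    rw [pj_late hj] at h1
    rw [pj_late (hj.trans (Nat.le_succ j))] at h2 ⊢
    have h3 := sol_lip (by positivity) h1 h2 (r := 1 / (Tq J : ℝ)) (fun i => by
      change |aj J L (j + 1) * b2r (b i) - aj J L j * b2r (b i)| ≤ _
      rw [← sub_mul, abs_mul, abs_of_nonneg (b2r_nonneg _)]
      calc |aj J L (j + 1) - aj J L j| * b2r (b i) ≤ |aj J L (j + 1) - aj J L j| * 1 :=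
            mul_le_mul_of_nonneg_left (b2r_le_one _) (abs_nonneg _)
        _ ≤ _ := by
            rw [mul_one]
            exact aj_step hJ1 j) e
    refine h3.trans ?_
    rw [sub_self, abs_zero]
    have : 40 / (Tq J : ℝ) / 40 = 1 / (Tq J : ℝ) := by
      field_simp
    rw [this]
    simp

theorem traj_step_Dx {C : CompCircuit n m} {b : Fin n → Bool} {J L : ℕ}
    {x : ℕ → Arc n m → ℝ} (h : Traj C b J L x) (hJ : GoodI C J L b) (hJ1 : 1 ≤ J)
    (j : ℕ) (g : Fin m) :
    |Dx C (x (j + 1)) g - Dx C (x j) g| ≤ pj J L (j + 1) / 20 := by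
  have h1 := traj_step h hJ hJ1 j (C.inp (g, false))
  have h2 := traj_step h hJ hJ1 j (C.inp (g, true))
  have h3 : Dx C (x (j + 1)) g - Dx C (x j) g =
      (x (j + 1) (C.inp (g, false)) - x j (C.inp (g, false))) -
        (x (j + 1) (C.inp (g, true)) - x j (C.inp (g, true))) := by
    unfold Dx
    ring
  rw [h3]
  refine (abs_sub _ _).trans ?_
  linarith

/-- All values stay bounded. -/
theorem traj_bound {C : CompCircuit n m} {b : Fin n → Bool} {J L : ℕ}
    {x : ℕ → Arc n m → ℝ} (h : Traj C b J L x) (hJ : GoodI C J L b) (hJ1 : 1 ≤ J)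
    (j : ℕ) (e : Arc n m) : |x j e| ≤ 2 := by
  obtain ⟨y, hy⟩ := exists_sol C (pj J L j) (fun _ => 0) (cc J L)
  have h1 := sol_lip (pj_pos hJ1 j).le hy (h j) (r := 1) (fun i => by
    change |aj J L j * b2r (b i) - 0| ≤ 1
    rw [sub_zero, abs_mul, abs_of_nonneg (aj_nonneg _), abs_of_nonneg (b2r_nonneg _)]
    calc aj J L j * b2r (b i) ≤ 1 * 1 :=
          mul_le_mul (aj_le_one _) (b2r_le_one _) (b2r_nonneg _) zero_le_one
      _ = 1 := by norm_num) e
  have h2 := hJ.zero' j _ _ (sol_zero C (pj J L 0) (κ := fun _ => 0) (fun _ => rfl)) hy e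
  have h3 := pj_le' (L := L) hJ1 j
  have h4 := pj_pos (L := L) hJ1 0
  have h5 : (0 : ℝ) ≤ (J : ℝ) := by positivity
  rw [sub_self, abs_zero] at h1
  simp only [mul_zero, zero_div, add_zero, sub_zero] at h1 h2
  have h6 : x j e = (x j e - y e) + y e := by ring
  rw [h6]
  refine (abs_add_le _ _).trans ?_
  nlinarith

/-- At the end the state is close to the Boolean run. -/
theorem traj_end {C : CompCircuit n m} {b : Fin n → Bool} {J L : ℕ}
    {x : ℕ → Arc n m → ℝ} (h : Traj C b J L x) (hJ : GoodI C J L b) (hJ1 : 1 ≤ J)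
    (hL : m ≤ 2 ^ L) (hL1 : 1 ≤ L) {v : Arc n m → Bool} (hv : C.IsVal b v) (e : Arc n m) :
    |x (Hn J L) e - b2r (v e)| ≤ 1 / 4 := by
  have h0 := h (Hn J L)
  rw [kj_last hJ1] at h0
  have h1 := near_bool h0 hv hJ e
  refine h1.trans ?_
  have h2 := pj_le' (L := L) hJ1 (Hn J L)
  have h3 := cc_nonneg (L := L) hJ1
  have h4 := cc_le (L := L) hJ1
  have h5 : (m : ℝ) ≤ 2 ^ L := by exact_mod_cast hL
  have h6 : (2 : ℝ) ≤ 2 ^ L := by
    calc (2 : ℝ) = 2 ^ 1 := by norm_num
      _ ≤ 2 ^ L := pow_le_pow_right₀ (by norm_num) hL1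
  rw [abs_of_nonneg h3]
  have h7 : (m : ℝ) * cc J L ≤ 2 ^ L * (2 / (2 ^ L) ^ 4) :=
    mul_le_mul h5 h4 h3 (by positivity)
  have h8 : (2 : ℝ) ^ L * (2 / (2 ^ L) ^ 4) ≤ 1 / 4 := by
    have h9 : (0 : ℝ) < 2 ^ L := by positivity
    rw [mul_div_assoc', div_le_iff₀ (by positivity)]
    have h10 : (8 : ℝ) ≤ (2 ^ L) ^ 3 := by
      calc (8 : ℝ) = 2 ^ 3 := by norm_num
        _ ≤ (2 ^ L) ^ 3 := pow_le_pow_left₀ (by norm_num) h6 3
    nlinarith
  linarith

/-- The machine computes the Boolean run. -/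
theorem machine (n m J : ℕ) (hJ1 : 1 ≤ J) (l : ℕ) (hl : n + 2 * m + 1 ≤ 2 ^ l) (hl1 : 1 ≤ l)
    (hJ : J ≤ 2 ^ (6 * l)) :
    ∃ (zt : ℕ → ℤ → ℤ) (wt : ℕ → ℤ → ℤ → ℤ) (A : ℕ → ℤ),
      (∀ j, |A j| ≤ 2 * 2 ^ (58 * l)) ∧
      ∀ (C : CompCircuit n m) (x : Fin n → Bool), GoodI C J l x → ∀ (v : Arc n m → Bool),
        C.IsVal x v → ∀ e : Arc n m,
          outZ (2 ^ (58 * l)) (fun b => b2i (encode C x e b))
            (finX (2 ^ (58 * l)) (2 ^ l * (4 * 2 ^ (58 * l) + 1)) (4 * 2 ^ (58 * l)) l (44 * l)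
              zt wt A (Hn J l) (fun b => b2i (encode C x e b))) = if v e then 1 else 0 := by
  set R' : ℤ := 2 ^ (58 * l) with hR'def
  have hR : 0 < R' := by rw [hR'def]; positivity
  set X : ℝ := 2 ^ l with hX
  have hX2 : (2 : ℝ) ≤ X := by
    calc (2 : ℝ) = 2 ^ 1 := by norm_num
      _ ≤ 2 ^ l := pow_le_pow_right₀ (by norm_num) hl1
  have hX0 : (0 : ℝ) < X := by linarith
  have hRX : (R' : ℝ) = X ^ 58 := by
    rw [hR'def, hX, ← pow_mul]
    push_cast
    rw [mul_comm]
  have hcard : Fintype.card (Arc n m) = n + 2 * m := by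
    simp only [Fintype.card_sum, Fintype.card_prod, Fintype.card_fin, Fintype.card_bool]
    ring
  have hcX : ((n + 2 * m : ℕ) : ℝ) + 1 ≤ X := by
    rw [hX]
    exact_mod_cast hl
  have hmX : (m : ℝ) ≤ X := by
    have h0 : (0 : ℝ) ≤ n := Nat.cast_nonneg n
    have h1 : (0 : ℝ) ≤ m := Nat.cast_nonneg m
    push_cast at hcX
    linarith
  have hm0 : (0 : ℝ) ≤ m := Nat.cast_nonneg m
  -- precision
  set δ : ℝ := 1 / X ^ 55 with hδ
  have hδ0 : 0 < δ := by rw [hδ]; positivity
  have hδR : δ * R' = X ^ 3 := by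
    rw [hδ, hRX]
    field_simp
  have hsol : SolOK n m R' (2 ^ l * (4 * 2 ^ (58 * l) + 1)) l δ := by
    refine ⟨hR, ?_, ?_, ?_, ?_⟩
    · rw [hcard]
      omega
    · rw [hR'def]
      have : (2 : ℤ) ^ l * (2 * (2 * 2 ^ (58 * l)) + 1) = 2 ^ l * (4 * 2 ^ (58 * l) + 1) := by
        ring
      rw [this]
    · have e1 : δ * (2 * (R' : ℝ)) = 2 * X ^ 3 := by
        rw [← hδR]; ring
      have e2 : (4 : ℝ) ^ l = X ^ 2 := by
        rw [hX, ← pow_mul, mul_comm l 2, pow_mul]
        norm_num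
      rw [e1, e2, hcard]
      have h1 : ((n + 2 * m : ℕ) : ℝ) * 2 + 1 ≤ 2 * X := by linarith
      calc X ^ 2 * (((n + 2 * m : ℕ) : ℝ) * 2 + 1) ≤ X ^ 2 * (2 * X) :=
            mul_le_mul_of_nonneg_left h1 (by positivity)
        _ = 2 * X ^ 3 := by ring
    · rw [hδR]
      exact one_le_pow₀ (by linarith)
  set ρ : ℝ := 1 / X ^ 21 with hρ
  have hρ0 : 0 < ρ := by rw [hρ]; positivity
  have hpow : ∀ k : ℕ, (2 : ℝ) ^ k ≤ X ^ k := fun k => pow_le_pow_left₀ (by norm_num) hX2 k
  have hδρ : δ ≤ ρ := by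
    rw [hδ, hρ]
    apply one_div_le_one_div_of_le (by positivity)
    exact pow_le_pow_right₀ (by linarith) (by norm_num)
  have hρle : ρ ≤ 1 / 100 := by
    rw [hρ]
    apply one_div_le_one_div_of_le (by norm_num)
    have := hpow 21
    norm_num at this
    linarith
  have hrho : RhoOK m (44 * l - 1) δ ρ := by
    refine ⟨hρ0.le, hδρ, hρle, ?_, ?_, ?_⟩
    · -- noise
      have h1 : (4 * (m : ℝ) + 8) + 1 ≤ 9 * X := by linarith
      have hμ : muE m δ ≤ 9 * X * δ := by
        unfold muE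
        have := mul_le_mul_of_nonneg_left h1 hδ0.le
        linarith
      have hμ0 : 0 ≤ muE m δ := by unfold muE; positivity
      have h2 : X * δ ≤ 1 / 9 := by
        rw [hδ, mul_one_div, div_le_div_iff₀ (by positivity) (by norm_num)]
        have h3 : X ^ 55 = X * X ^ 54 := by ring
        rw [h3]
        have h4 := hpow 54
        norm_num at h4
        nlinarith
      have hμ1 : muE m δ ≤ 1 := by linarith
      have h3 : 3 * (4 * (m : ℝ) + 8) + muE m δ ≤ 25 * X := by linarith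
      have h4 : zE m δ ≤ 113 * X ^ 3 * δ := by
        unfold zE
        have h5 : muE m δ * (3 * (4 * m + 8) + muE m δ) ≤ (9 * X * δ) * (25 * X) :=
          mul_le_mul hμ h3 (by positivity) (by positivity)
        have h6 : (m : ℝ) * (muE m δ * (3 * (4 * m + 8) + muE m δ)) ≤
            X * ((9 * X * δ) * (25 * X)) :=
          mul_le_mul hmX h5 (by positivity) hX0.le
        have h7 : X * ((9 * X * δ) * (25 * X)) = 225 * X ^ 3 * δ := by ring
        have h8 : 0 ≤ X ^ 3 * δ := by positivity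
        linarith
      have h5 : 8 * (m : ℝ) * δ ^ 2 ≤ 8 * X ^ 3 * δ := by
        have h6 : 8 * (m : ℝ) * δ ^ 2 ≤ 8 * X * δ ^ 2 := by
          have := mul_le_mul_of_nonneg_right hmX (sq_nonneg δ)
          linarith
        have h7 : δ ≤ X ^ 2 := by
          have : (1 : ℝ) ≤ X ^ 2 := one_le_pow₀ (by linarith)
          linarith
        have h8 : 8 * X * δ ^ 2 = 8 * X * δ * δ := by ring
        have h9 : 8 * X ^ 3 * δ = 8 * X * δ * X ^ 2 := by ring
        rw [h8] at h6
        rw [h9]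
        exact h6.trans (mul_le_mul_of_nonneg_left h7 (by positivity))
      have h6 : 8 * zE m δ + 8 * m * δ ^ 2 ≤ 1024 * X ^ 3 * δ := by
        have : 0 ≤ X ^ 3 * δ := by positivity
        linarith
      refine h6.trans ?_
      have h7 : 1024 * X ^ 3 * δ = 1024 / X ^ 52 := by
        rw [hδ]
        field_simp
      have h8 : ρ ^ 2 = X ^ 10 / X ^ 52 := by
        rw [hρ]
        field_simp
      rw [h7, h8]
      apply div_le_div_of_nonneg_right _ (by positivity)
      have := hpow 10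
      norm_num at this
      linarith
    · -- iteration
      have h1 : (2 : ℝ) ^ (43 * l) ≤ 2 ^ (44 * l - 1) :=
        pow_le_pow_right₀ (by norm_num) (by omega)
      have h2 : (2 : ℝ) ^ (43 * l) = X ^ 43 := by
        rw [hX, ← pow_mul, mul_comm]
      have h3 : ρ ^ 2 * X ^ 43 = X := by
        rw [hρ]
        field_simp
      calc (m : ℝ) ≤ X := hmX
        _ = ρ ^ 2 * X ^ 43 := h3.symm
        _ ≤ ρ ^ 2 * 2 ^ (44 * l - 1) := by
            rw [← h2]
            exact mul_le_mul_of_nonneg_left h1 (sq_nonneg ρ)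
    · -- last
      have h1 : (m : ℝ) * (4 * ρ) ^ 2 ≤ X * (4 * ρ) ^ 2 :=
        mul_le_mul_of_nonneg_right hmX (sq_nonneg _)
      have h2 : X * (4 * ρ) ^ 2 = 16 / X ^ 41 := by
        rw [hρ]
        field_simp
        norm_num
      rw [h2] at h1
      refine h1.trans ?_
      rw [div_le_div_iff₀ (by positivity) (by norm_num)]
      have := hpow 41
      norm_num at this
      linarith
  -- temperatures
  have hJX : (J : ℝ) ≤ X ^ 6 := by
    rw [hX, ← pow_mul, mul_comm]
    exact_mod_cast hJ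
  have hJr : (1 : ℝ) ≤ J := by exact_mod_cast hJ1
  have hTq : (Tq J : ℝ) = 320 * J := by
    unfold Tq
    push_cast
    ring
  have hpl : ∀ j, 1 / (8 * X ^ 13) ≤ pj J l j := by
    intro j
    refine le_trans ?_ (pj_ge hJ1 j)
    rw [hTq, ← hX]
    have e1 : 40 / (320 * (J : ℝ)) / X ^ 7 = 1 / (8 * (J * X ^ 7)) := by
      field_simp
      norm_num
    rw [e1]
    apply one_div_le_one_div_of_le (by positivity)
    have := mul_le_mul_of_nonneg_right hJX (show (0 : ℝ) ≤ X ^ 7 by positivity)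
    have e2 : X ^ 6 * X ^ 7 = X ^ 13 := by ring
    rw [e2] at this
    linarith
  have hpρ : ∀ j, 20 * ρ ≤ pj J l j := by
    intro j
    refine le_trans ?_ (hpl j)
    rw [hρ, mul_one_div, div_le_div_iff₀ (by positivity) (by positivity)]
    have h1 : X ^ 21 = X ^ 8 * X ^ 13 := by ring
    rw [h1]
    have h2 := hpow 8
    norm_num at h2
    have h3 : 0 < X ^ 13 := by positivity
    nlinarith
  have hηp : ∀ j, 80 * (1 / (2 * (R' : ℝ))) ≤ pj J l j := by
    intro j
    refine le_trans ?_ (hpl j)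
    rw [hRX, mul_one_div, div_le_div_iff₀ (by positivity) (by positivity)]
    have h1 : X ^ 58 = X ^ 45 * X ^ 13 := by ring
    rw [h1]
    have h2 := hpow 45
    norm_num at h2
    have h3 : 0 < X ^ 13 := by positivity
    nlinarith
  have hη4 : 1 / (2 * (R' : ℝ)) ≤ 1 / 80 := by
    have h1 := hηp 0
    have h2 := pj_le_one (L := l) hJ1 0
    linarith
  have hc1 : cc J l ≤ 1 / 2 := by
    refine (cc_le hJ1).trans ?_
    rw [← hX, div_le_div_iff₀ (by positivity) (by norm_num)]
    have := hpow 4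
    norm_num at this
    linarith
  have hA : ∀ j, |Aint R' J l j| ≤ 2 * R' := by
    intro j
    obtain ⟨h1, h2, _⟩ := Aint_bounds hR J l j
    rw [abs_of_nonneg h1]
    exact h2
  have hk1 : 44 * l - 1 + 1 = 44 * l := by omega
  refine ⟨fun j => ztab R' (pj J l (min (j + 1) (Hn J l))),
    fun j => wtab R' (pj J l (min (j + 1) (Hn J l))) (cc J l),
    fun j => Aint R' J l (min (j + 1) (Hn J l)), fun j => hA _, ?_⟩
  intro C xb hD v hv e0
  obtain ⟨t, ht⟩ := exists_traj C xb J l
  choose x hx using fun j => exists_sol C (pj J l j) (kapR R' (Aint R' J l j) xb) (cc J l)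
  have hclose : ∀ j e, |x j e - t j e| ≤ 1 / (2 * (R' : ℝ)) := by
    intro j e
    have h1 := sol_lip (pj_pos hJ1 j).le (ht j) (hx j) (r := 1 / (2 * (R' : ℝ))) (fun i => by
      change |(b2i (xb i) : ℝ) * (Aint R' J l j : ℝ) / (2 * R') - aj J l j * b2r (xb i)| ≤ _
      have h2 := (Aint_bounds hR J l j).2.2
      rw [b2i_eq_b2r]
      have e1 : b2r (xb i) * (Aint R' J l j : ℝ) / (2 * R') - aj J l j * b2r (xb i) =
        b2r (xb i) * ((Aint R' J l j : ℝ) / (2 * R') - aj J l j) := by ring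
      rw [e1, abs_mul, abs_of_nonneg (b2r_nonneg _)]
      calc b2r (xb i) * |(Aint R' J l j : ℝ) / (2 * R') - aj J l j| ≤
            1 * |(Aint R' J l j : ℝ) / (2 * R') - aj J l j| :=
            mul_le_mul_of_nonneg_right (b2r_le_one _) (abs_nonneg _)
        _ ≤ _ := by rw [one_mul]; exact h2) e
    simpa using h1
  have hbd : ∀ j e, |x j e| ≤ 2 := by
    intro j e
    obtain ⟨y, hy⟩ := exists_sol C (pj J l j) (fun _ => 0) (cc J l)
    have h1 := sol_lip (pj_pos hJ1 j).le hy (hx j) (r := 1) (fun i => by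
      change |(b2i (xb i) : ℝ) * (Aint R' J l j : ℝ) / (2 * R') - 0| ≤ 1
      rw [sub_zero, abs_div, abs_of_pos (show (0 : ℝ) < 2 * R' by
        have : (0 : ℝ) < R' := by exact_mod_cast hR
        positivity), div_le_one (by
        have : (0 : ℝ) < R' := by exact_mod_cast hR
        positivity), abs_mul, b2i_eq_b2r, abs_of_nonneg (b2r_nonneg _)]
      have h2 : |(Aint R' J l j : ℝ)| ≤ 2 * R' := by exact_mod_cast hA j
      calc b2r (xb i) * |(Aint R' J l j : ℝ)| ≤ 1 * |(Aint R' J l j : ℝ)| :=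
            mul_le_mul_of_nonneg_right (b2r_le_one _) (abs_nonneg _)
        _ ≤ _ := by rw [one_mul]; exact h2) e
    have h2 := hD.zero' j _ _ (sol_zero C (pj J l 0) (κ := fun _ => 0) (fun _ => rfl)) hy e
    have h3 := pj_le' (L := l) hJ1 j
    have h4 := pj_pos (L := l) hJ1 0
    have h5 : (0 : ℝ) ≤ (J : ℝ) := by positivity
    rw [sub_self, abs_zero] at h1
    simp only [mul_zero, zero_div, add_zero, sub_zero] at h1 h2
    have h6 : x j e = (x j e - y e) + y e := by ring
    rw [h6]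
    refine (abs_add_le _ _).trans ?_
    nlinarith
  have hz : ∀ e, x 0 e = 0 := by
    intro e
    have hA0 : Aint R' J l 0 = 0 := by
      unfold Aint
      rw [aj_early (Nat.zero_le _), mul_zero, Int.floor_zero]
    have h0 := sol_zero C (pj J l 0) (κ := kapR (n := n) (m := m) R' (Aint R' J l 0) xb)
      (fun i => by
        change (b2i (xb i) : ℝ) * (Aint R' J l 0 : ℝ) / (2 * R') = 0
        rw [hA0]
        simp)
    have h1 := sol_lip (pj_pos hJ1 0).le h0 (hx 0) (r := 0) (fun i => by simp) e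
    have h2 : cc J l - H (pj J l 0) 0 = 0 := sub_self _
    rw [h2] at h1
    simp only [abs_zero, mul_zero, zero_div, add_zero, sub_zero] at h1
    exact abs_eq_zero.1 (le_antisymm h1 (abs_nonneg _))
  have key := mach_correct hsol hrho (Hn J l) (fun j => pj J l j) (fun j => Aint R' J l j)
    (cc_nonneg hJ1) hc1 (fun j _ => ⟨pj_pos hJ1 j, pj_le_one hJ1 j, hpρ j⟩)
    (fun j _ => hA j) C xb x (fun j _ => hx j) (fun j _ => hbd j) hz
    (fun j _ g => by
      have h1 := traj_step_Dx ht hD hJ1 j g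
      have h2 := hclose (j + 1) (C.inp (g, false))
      have h3 := hclose (j + 1) (C.inp (g, true))
      have h4 := hclose j (C.inp (g, false))
      have h5 := hclose j (C.inp (g, true))
      have h6 := hηp (j + 1)
      have e1 : Dx C (x (j + 1)) g - Dx C (x j) g = (Dx C (t (j + 1)) g - Dx C (t j) g) +
        ((x (j + 1) (C.inp (g, false)) - t (j + 1) (C.inp (g, false))) -
          (x (j + 1) (C.inp (g, true)) - t (j + 1) (C.inp (g, true))) -
          (x j (C.inp (g, false)) - t j (C.inp (g, false))) +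
          (x j (C.inp (g, true)) - t j (C.inp (g, true)))) := by
        unfold Dx
        ring
      rw [e1]
      rw [abs_le] at h1 h2 h3 h4 h5 ⊢
      constructor <;> linarith [h1.1, h1.2, h2.1, h2.2, h3.1, h3.2, h4.1, h4.2, h5.1, h5.2])
    v (fun e => by
      have hmn : m ≤ 2 ^ l := by omega
      have h1 := traj_end ht hD hJ1 hmn hl1 hv e
      have h2 := hclose (Hn J l) e
      rw [b2i_eq_b2r]
      rw [abs_le] at h1 h2 ⊢
      constructor <;> linarith [h1.1, h1.2, h2.1, h2.2]) e0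
  rw [hk1] at key
  exact key

end Pool.Agent.LibCC88
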