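import Pool.Agent.LibCC88.Good
import Pool.Agent.LibCC88.Cut

/-!
The drift of a randomly cut circuit.
-/

namespace Pool.Agent.LibCC88

open Pool.Agent.LibCC Pool.Agent.LibCCS Pool.Agent.LibCC67 Pool.Agent.LibCC89 Finset

variable {n m : ℕ}

/-- The state in front of a port does not depend on the cut at this port. -/
theorem sol_local {C : CompCircuit n m} {K K' : Fin m × Bool → Bool} {p0 : Fin m × Bool}
    (hK : ∀ p, p ≠ p0 → K p = K' p) {p : ℝ} {κ : Arc (n + 2 * m) m → ℝ} {c0 : ℝ}
    {x x' : Arc (n + 2 * m) m → ℝ} (h : Sol (cutC C K) p κ c0 x)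
    (h' : Sol (cutC C K') p κ c0 x') : x (up (C.inp p0)) = x' (up (C.inp p0)) := by
  obtain ⟨ord, hord⟩ := C.acyclic
  have hs : ∀ i, x (Sum.inl i) = x' (Sum.inl i) := fun i => by rw [h.src, h'.src]
  have key : ∀ k : ℕ, ∀ (g : Fin m) (c : Bool), ord g = k → ord g < ord p0.1 →
      x (Sum.inr (g, c)) = x' (Sum.inr (g, c)) := by
    intro k
    induction k using Nat.strong_induction_on with
    | _ k ih =>
      intro g c hgk hg
      have hin : ∀ b, x ((cutC C K).inp (g, b)) = x' ((cutC C K').inp (g, b)) := by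
        intro b
        have hne : (g, b) ≠ p0 := by
          intro hh
          rw [← hh] at hg
          exact lt_irrefl _ hg
        rw [cutC_inp, cutC_inp, ← hK _ hne]
        split_ifs with h1
        · exact hs _
        · rcases hb : C.inp (g, b) with i | ⟨h2, c2⟩
          · exact hs _
          · have h3 := hord g b h2 c2 hb
            exact ih (ord h2) (by omega) h2 c2 rfl (by omega)
      rw [h.opn (g, c) rfl, h'.opn (g, c) rfl]
      unfold Sx Dx
      rw [hin, hin]
  rcases hb : C.inp p0 with i | ⟨g, c⟩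
  · exact hs _
  · exact key (ord g) g c rfl (hord p0.1 p0.2 g c hb)

theorem sol_unique {C : CompCircuit n m} {p : ℝ} (hp : 0 ≤ p) {κ : Arc n m → ℝ} {c0 : ℝ}
    {x x' : Arc n m → ℝ} (h : Sol C p κ c0 x) (h' : Sol C p κ c0 x') : x = x' := by
  funext e
  have h1 := sol_lip hp h h' (r := 0) (fun i => by simp) e
  simp only [sub_self, abs_zero, mul_zero, zero_div, add_zero] at h1
  have h2 := abs_eq_zero.1 (le_antisymm h1 (abs_nonneg _))
  linarith

/-- The average of the exponential of the difference of two states. -/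
theorem avg_exp (C : CompCircuit n m) {q : ℕ} (hq : 1 ≤ q) (c1 : Fin (q ^ 2)) {p p' : ℝ}
    (hp : 0 ≤ p) (hpp : p < p') (κ : Arc (n + 2 * m) m → ℝ) (c0 : ℝ)
    {X X' : (Fin m × Bool → Fin (q ^ 2)) → Arc (n + 2 * m) m → ℝ}
    (hX : ∀ ω, Sol (cutC C (kap c1 ω)) p κ c0 (X ω))
    (hX' : ∀ ω, Sol (cutC C (kap c1 ω)) p' κ c0 (X' ω)) {s : ℝ} (hs : s ^ 2 = 1)
    (a : Fin m × Bool) :
    ∑ ω, Real.exp (s / ((p' - p) * q) * (X' ω (Sum.inr a) - X ω (Sum.inr a))) ≤
      (Fintype.card (Fin m × Bool → Fin (q ^ 2)) : ℝ) * (n + 4 * m) := by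
  classical
  set d := p' - p with hd
  have hd0 : 0 < d := by rw [hd]; linarith
  have hq1 : (1 : ℝ) ≤ q := by exact_mod_cast hq
  have hq0 : (0 : ℝ) < q := by linarith
  set θ := s / (d * q) with hθ
  set Qr : ℝ := ((q ^ 2 : ℕ) : ℝ) with hQr
  have hQ2 : Qr = (q : ℝ) ^ 2 := by rw [hQr]; push_cast; ring
  have hQ1 : 1 ≤ Qr := by rw [hQ2]; exact one_le_pow₀ hq1
  have hK : θ ^ 2 * d ^ 2 / 2 = 1 / (2 * Qr) := by
    rw [hθ, hQ2, div_pow, hs]
    field_simp
  have hK0 : θ ^ 2 * d ^ 2 / 2 ≤ 1 / 2 := by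
    rw [hK]
    apply one_div_le_one_div_of_le (by norm_num)
    linarith
  set A := Real.exp (θ ^ 2 * d ^ 2 / 2) with hA
  have hA2 : A ≤ 2 := by
    have h1 : A ≤ Real.exp (1 / 2) := Real.exp_le_exp.mpr hK0
    have h2 : Real.exp (1 / 2) ^ 2 = Real.exp 1 := by
      rw [← Real.exp_nat_mul]
      norm_num
    have h3 := Real.exp_one_lt_d9
    have h4 := Real.exp_pos (1 / 2)
    nlinarith
  have hA1 : A * (1 - 1 / Qr) ≤ 1 := by
    have h1 : 1 - 1 / Qr ≤ Real.exp (-(1 / Qr)) := by
      have := Real.add_one_le_exp (-(1 / Qr))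
      linarith
    have h2 : A * Real.exp (-(1 / Qr)) ≤ 1 := by
      rw [hA, ← Real.exp_add, Real.exp_le_one_iff, hK]
      have h3 : 1 / (2 * Qr) = 1 / Qr / 2 := by field_simp
      rw [h3]
      have : 0 < 1 / Qr := by positivity
      linarith
    exact (mul_le_mul_of_nonneg_left h1 (Real.exp_pos _).le).trans h2
  have hgate : ∀ ω g, Real.exp (θ * (X' ω (Sum.inr (g, true)) - X ω (Sum.inr (g, true)))) +
      Real.exp (θ * (X' ω (Sum.inr (g, false)) - X ω (Sum.inr (g, false)))) ≤
      A * (Real.exp (θ * (X' ω ((cutC C (kap c1 ω)).inp (g, false)) -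
          X ω ((cutC C (kap c1 ω)).inp (g, false)))) +
        Real.exp (θ * (X' ω ((cutC C (kap c1 ω)).inp (g, true)) -
          X ω ((cutC C (kap c1 ω)).inp (g, true))))) := by
    intro ω g
    set C' := cutC C (kap c1 ω)
    set E := H p' (Dx C' (X' ω) g) - H p (Dx C' (X ω) g) with hE
    set e := fun a => X' ω a - X ω a with he
    have e3 : Dx C' e g = Dx C' (X' ω) g - Dx C' (X ω) g := by
      rw [he]
      unfold Dx
      ring
    have hlo : -|Dx C' e g| ≤ E := by
      have e1 := facts.mono p (p' - p) (Dx C' (X' ω) g) hp hd0.le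
      rw [show p + (p' - p) = p' by ring] at e1
      have e2 := facts.lip p (Dx C' (X' ω) g) (Dx C' (X ω) g) hp
      rw [e3, hE]
      have := (abs_le.1 e2).1
      linarith
    have hup : E ≤ H d (Dx C' e g) := by
      have e1 := facts.sub p (p' - p) (Dx C' (X ω) g) (Dx C' (X' ω) g - Dx C' (X ω) g) hp hd0.le
      rw [show p + (p' - p) = p' by ring,
        show Dx C' (X ω) g + (Dx C' (X' ω) g - Dx C' (X ω) g) = Dx C' (X' ω) g by ring] at e1
      rw [e3, hE]
      linarith
    have h1 := exp_gate (θ := θ) (s := Sx C' e g) hd0 hlo hup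
    have o1 : X' ω (Sum.inr (g, true)) - X ω (Sum.inr (g, true)) = (Sx C' e g + E) / 2 := by
      rw [(hX ω).opn (g, true) rfl, (hX' ω).opn (g, true) rfl, he, hE]
      simp only [sg, if_true, Sx]
      ring
    have o2 : X' ω (Sum.inr (g, false)) - X ω (Sum.inr (g, false)) = (Sx C' e g - E) / 2 := by
      rw [(hX ω).opn (g, false) rfl, (hX' ω).opn (g, false) rfl, he, hE]
      simp only [sg, Bool.false_eq_true, if_false, Sx]
      ring
    have o3 : (Sx C' e g + Dx C' e g) / 2 = e (C'.inp (g, false)) := by simp only [Sx, Dx]; ring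
    have o4 : (Sx C' e g - Dx C' e g) / 2 = e (C'.inp (g, true)) := by simp only [Sx, Dx]; ring
    rw [o3, o4] at h1
    rw [o1, o2]
    exact h1
  obtain ⟨Gs, hD, ha⟩ := exists_dn C (Sum.inr a)
  have h1 := avg_potential C c1 (f := fun ω a => Real.exp (θ * (X' ω a - X ω a))) (A := A) hA1
    (fun ω a => (Real.exp_pos _).le)
    (fun ω i => by
      simp only [(hX ω).src, (hX' ω).src, sub_self, mul_zero, Real.exp_zero])
    hgate
    (fun p0 ω k => by
      have hK' : ∀ p1, p1 ≠ p0 → kap c1 (Function.update ω p0 k) p1 = kap c1 ω p1 := by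
        intro p1 hp1
        unfold kap
        rw [Function.update_of_ne hp1]
      simp only [sol_local hK' (hX _) (hX ω), sol_local hK' (hX' _) (hX' ω)]) Gs hD
  have h2 : ∑ ω, Real.exp (θ * (X' ω (Sum.inr a) - X ω (Sum.inr a))) ≤
      ∑ ω, ∑ b ∈ Av C Gs, Real.exp (θ * (X' ω (up b) - X ω (up b))) := by
    apply Finset.sum_le_sum
    intro ω _
    exact single_le_sum (f := fun b => Real.exp (θ * (X' ω (up b) - X ω (up b))))
      (fun _ _ => (Real.exp_pos _).le) ha
  refine h2.trans (h1.trans ?_)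
  apply mul_le_mul_of_nonneg_left _ (Nat.cast_nonneg _)
  have h3 : (Gs.card : ℝ) ≤ m := by
    have := Finset.card_le_univ Gs
    rw [Fintype.card_fin] at this
    exact_mod_cast this
  have h4 : 2 * A / Qr ≤ 4 := by
    rw [div_le_iff₀ (by linarith)]
    linarith
  have h5 : 0 ≤ 2 * A / Qr := by positivity
  have h6 : 2 * A / Qr * (Gs.card : ℝ) ≤ 4 * m :=
    mul_le_mul h4 h3 (Nat.cast_nonneg _) (by norm_num)
  change (n : ℝ) + 2 * A / Qr * (Gs.card : ℝ) ≤ _
  linarith

open Classical in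
/-- All but few cut sets have small drift. -/
theorem rand_drift (C : CompCircuit n m) {q : ℕ} (hq : 1 ≤ q) (c1 : Fin (q ^ 2)) {p p' : ℝ}
    (hp : 0 ≤ p) (hpp : p ≤ p') (κ : Arc (n + 2 * m) m → ℝ) (c0 : ℝ) (B : ℕ) :
    ((univ.filter (fun ω : Fin m × Bool → Fin (q ^ 2) =>
      ¬ PairOK (cutC C (kap c1 ω)) p p' κ c0 ((q * B : ℕ) : ℝ))).card : ℝ) ≤
      (Fintype.card (Fin m × Bool → Fin (q ^ 2)) : ℝ) *
        (4 * m * (n + 4 * m) * Real.exp (-B)) := by
  rcases hpp.eq_or_lt with heq | hlt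
  · subst heq
    have h1 : univ.filter (fun ω : Fin m × Bool → Fin (q ^ 2) =>
      ¬ PairOK (cutC C (kap c1 ω)) p p κ c0 ((q * B : ℕ) : ℝ)) = ∅ := by
      rw [Finset.filter_eq_empty_iff]
      intro ω _
      rw [not_not]
      intro x x' hx hx' e
      have h2 := sol_lip hp hx hx' (r := 0) (fun i => by simp) e
      simpa using h2
    rw [h1]
    simp only [card_empty, Nat.cast_zero]
    positivity
  choose X hX using fun ω : Fin m × Bool → Fin (q ^ 2) =>
    exists_sol (cutC C (kap c1 ω)) p κ c0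
  choose X' hX' using fun ω : Fin m × Bool → Fin (q ^ 2) =>
    exists_sol (cutC C (kap c1 ω)) p' κ c0
  have hd : 0 < p' - p := by linarith
  have hq1 : (1 : ℝ) ≤ q := by exact_mod_cast hq
  have hq0 : (0 : ℝ) < q := by linarith
  have hB0 : (0 : ℝ) ≤ B := Nat.cast_nonneg B
  let bad : ℝ → Fin m × Bool → Finset (Fin m × Bool → Fin (q ^ 2)) := fun s a =>
    univ.filter (fun ω => (B : ℝ) ≤ s / ((p' - p) * q) * (X' ω (Sum.inr a) - X ω (Sum.inr a)))
  have hbad : ∀ s : ℝ, s ^ 2 = 1 → ∀ a, ((bad s a).card : ℝ) ≤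
      (Fintype.card (Fin m × Bool → Fin (q ^ 2)) : ℝ) * ((n + 4 * m) * Real.exp (-B)) := by
    intro s hs a
    have h1 := avg_exp C hq c1 hp hlt κ c0 hX hX' hs a
    have h2 : ((bad s a).card : ℝ) * Real.exp B ≤
        ∑ ω, Real.exp (s / ((p' - p) * q) * (X' ω (Sum.inr a) - X ω (Sum.inr a))) := by
      calc ((bad s a).card : ℝ) * Real.exp B = ∑ ω ∈ bad s a, Real.exp B := by
            rw [sum_const, nsmul_eq_mul]
        _ ≤ ∑ ω ∈ bad s a,
            Real.exp (s / ((p' - p) * q) * (X' ω (Sum.inr a) - X ω (Sum.inr a))) := by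
            apply Finset.sum_le_sum
            intro ω hω
            exact Real.exp_le_exp.mpr (mem_filter.1 hω).2
        _ ≤ _ := Finset.sum_le_sum_of_subset_of_nonneg (filter_subset _ _)
            (fun _ _ _ => (Real.exp_pos _).le)
    have h3 := h2.trans h1
    have h4 : ((bad s a).card : ℝ) = (bad s a).card * Real.exp B * Real.exp (-B) := by
      rw [mul_assoc, ← Real.exp_add]
      simp
    rw [h4]
    have h5 := mul_le_mul_of_nonneg_right h3 (Real.exp_pos (-(B : ℝ))).le
    linarith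
  have hsub : univ.filter (fun ω : Fin m × Bool → Fin (q ^ 2) =>
      ¬ PairOK (cutC C (kap c1 ω)) p p' κ c0 ((q * B : ℕ) : ℝ)) ⊆
      univ.biUnion (fun a => bad 1 a ∪ bad (-1) a) := by
    intro ω hω
    rw [mem_filter] at hω
    have h1 := hω.2
    unfold PairOK at h1
    push Not at h1
    obtain ⟨x, x', hx, hx', e, he⟩ := h1
    have hxX : x = X ω := sol_unique hp hx (hX ω)
    have hxX' : x' = X' ω := sol_unique (hp.trans hpp) hx' (hX' ω)
    subst hxX hxX'
    rw [mem_biUnion]
    push_cast at he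
    rcases e with i | a
    · exfalso
      rw [hx.src, hx'.src, sub_self, abs_zero] at he
      have : 0 ≤ (p' - p) * (q * B) := by positivity
      linarith
    · refine ⟨a, mem_univ _, ?_⟩
      rw [mem_union]
      have h6 : 0 < (p' - p) * q := by positivity
      rcases lt_abs.1 he with h5 | h5
      · left
        rw [mem_filter]
        refine ⟨mem_univ _, ?_⟩
        rw [div_mul_eq_mul_div, le_div_iff₀ h6]
        linarith
      · right
        rw [mem_filter]
        refine ⟨mem_univ _, ?_⟩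
        rw [div_mul_eq_mul_div, le_div_iff₀ h6]
        linarith
  have h1 : ((univ.filter (fun ω : Fin m × Bool → Fin (q ^ 2) =>
      ¬ PairOK (cutC C (kap c1 ω)) p p' κ c0 ((q * B : ℕ) : ℝ))).card : ℝ) ≤
      ∑ a : Fin m × Bool, ((bad 1 a).card + (bad (-1) a).card : ℝ) := by
    have h2 := (Finset.card_le_card hsub).trans Finset.card_biUnion_le
    have h3 : ∑ a : Fin m × Bool, (bad 1 a ∪ bad (-1) a).card ≤
        ∑ a : Fin m × Bool, ((bad 1 a).card + (bad (-1) a).card) :=
      Finset.sum_le_sum (fun a _ => Finset.card_union_le _ _)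
    exact_mod_cast h2.trans h3
  refine h1.trans ?_
  calc ∑ a : Fin m × Bool, ((bad 1 a).card + (bad (-1) a).card : ℝ)
      ≤ ∑ a : Fin m × Bool, (2 * ((Fintype.card (Fin m × Bool → Fin (q ^ 2)) : ℝ) *
        ((n + 4 * m) * Real.exp (-B)))) := by
        apply Finset.sum_le_sum
        intro a _
        have h2 := hbad 1 (by norm_num) a
        have h3 := hbad (-1) (by norm_num) a
        linarith
    _ = _ := by
        rw [sum_const, card_univ, Fintype.card_prod, Fintype.card_fin, Fintype.card_bool,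
          nsmul_eq_mul]
        push_cast
        ring

end Pool.Agent.LibCC88
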