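import Pool.Agent.LibCC88.MasterI
import Pool.Agent.LibCC88.RandDrift

/-!
For every instance almost all cut sets are good.
-/

namespace Pool.Agent.LibCC88

open Pool.Agent.LibCC Pool.Agent.LibCCV Pool.Agent.LibCCS Pool.Agent.LibCC67 Pool.Agent.LibCC89 Finset

variable {n m : ℕ}

/-- The drift bound used for the cut rate `1 / q ^ 2`. -/
def Jq (l q : ℕ) : ℕ := q * (32 * l)

theorem numeric {n m q l : ℕ} (hl1 : 1 ≤ l) (hN : n + 4 * m + 1 ≤ 2 ^ l) (hq : q ≤ 2 ^ l) :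
    ((2 * n1 (Jq l q) l + 2 : ℕ) : ℝ) * (4 * m * (n + 4 * m) * Real.exp (-((32 * l : ℕ) : ℝ))) ≤
      1 / 8 := by
  have h1 : l ≤ 2 ^ l := Nat.lt_two_pow_self.le
  have h2 : Jq l q ≤ 2 ^ (5 + 2 * l) := by
    unfold Jq
    calc q * (32 * l) ≤ 2 ^ l * (2 ^ 5 * 2 ^ l) := Nat.mul_le_mul hq (Nat.mul_le_mul (by norm_num) h1)
      _ = 2 ^ (5 + 2 * l) := by rw [← pow_add, ← pow_add]; congr 1; ring
  have h3 : n1 (Jq l q) l ≤ 2 ^ (16 + 3 * l) := by
    unfold n1 Tq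
    calc 4 * l * (320 * Jq l q) ≤ 2 ^ 2 * 2 ^ l * (2 ^ 9 * 2 ^ (5 + 2 * l)) :=
          Nat.mul_le_mul (Nat.mul_le_mul (by norm_num) h1) (Nat.mul_le_mul (by norm_num) h2)
      _ = 2 ^ (16 + 3 * l) := by
        rw [← pow_add, ← pow_add, ← pow_add]; congr 1; ring
  have h4 : 2 * n1 (Jq l q) l + 2 ≤ 2 ^ (18 + 3 * l) := by
    have h5 : 2 ^ (18 + 3 * l) = 4 * 2 ^ (16 + 3 * l) := by
      rw [show 18 + 3 * l = 2 + (16 + 3 * l) by ring, pow_add]
      norm_num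
    have h6 : 1 ≤ 2 ^ (16 + 3 * l) := Nat.one_le_two_pow
    omega
  have h5 : 4 * m * (n + 4 * m) ≤ 2 ^ (2 * l) := by
    calc 4 * m * (n + 4 * m) ≤ 2 ^ l * 2 ^ l := Nat.mul_le_mul (by omega) (by omega)
      _ = 2 ^ (2 * l) := by rw [← pow_add]; congr 1; ring
  have h6 : Real.exp (-((32 * l : ℕ) : ℝ)) ≤ 1 / 2 ^ (32 * l) := by
    rw [Real.exp_neg, ← one_div]
    apply one_div_le_one_div_of_le (by positivity)
    have h7 : (2 : ℝ) ≤ Real.exp 1 := by
      have := Real.add_one_le_exp (1 : ℝ)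
      linarith
    calc (2 : ℝ) ^ (32 * l) ≤ (Real.exp 1) ^ (32 * l) := pow_le_pow_left₀ (by norm_num) h7 _
      _ = Real.exp ((32 * l : ℕ) : ℝ) := by rw [← Real.exp_nat_mul]; simp
  have h7 : ((2 * n1 (Jq l q) l + 2 : ℕ) : ℝ) ≤ 2 ^ (18 + 3 * l) := by exact_mod_cast h4
  have h8 : (4 * m * (n + 4 * m) : ℝ) ≤ 2 ^ (2 * l) := by exact_mod_cast h5
  calc ((2 * n1 (Jq l q) l + 2 : ℕ) : ℝ) * (4 * m * (n + 4 * m) * Real.exp (-((32 * l : ℕ) : ℝ)))
      ≤ 2 ^ (18 + 3 * l) * (2 ^ (2 * l) * (1 / 2 ^ (32 * l))) := by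
        apply mul_le_mul h7 _ (by positivity) (by positivity)
        exact mul_le_mul h8 h6 (Real.exp_pos _).le (by positivity)
    _ = 2 ^ (18 + 5 * l) / 2 ^ (32 * l) := by
        rw [show 18 + 5 * l = (18 + 3 * l) + 2 * l by ring, pow_add (2 : ℝ) (18 + 3 * l)]
        ring
    _ ≤ 1 / 8 := by
        rw [div_le_div_iff₀ (by positivity) (by norm_num)]
        calc (2 : ℝ) ^ (18 + 5 * l) * 8 = 2 ^ (21 + 5 * l) := by
              rw [show 21 + 5 * l = (18 + 5 * l) + 3 by ring, pow_add (2 : ℝ) (18 + 5 * l) 3]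
              norm_num
          _ ≤ 2 ^ (32 * l) := pow_le_pow_right₀ (by norm_num) (by omega)
          _ = 1 * 2 ^ (32 * l) := by ring

open Classical in
/-- For every comparator circuit and every assignment of values to the sources and to the cut
ports, all but an eighth of the cut sets are good. -/
theorem good_cuts (C : CompCircuit n m) {q l : ℕ} (hq : 1 ≤ q) (c1 : Fin (q ^ 2))
    (hl1 : 1 ≤ l) (hN : n + 4 * m + 1 ≤ 2 ^ l) (hql : q ≤ 2 ^ l) (b : Fin (n + 2 * m) → Bool) :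
    ((univ.filter (fun ω : Fin m × Bool → Fin (q ^ 2) =>
      ¬ GoodI (cutC C (kap c1 ω)) (Jq l q) l b)).card : ℝ) ≤
      (Fintype.card (Fin m × Bool → Fin (q ^ 2)) : ℝ) / 8 := by
  have hJ1 : 1 ≤ Jq l q := Nat.mul_pos hq (by omega)
  set J := Jq l q with hJ
  let P : ℝ → ℝ → (Arc (n + 2 * m) m → ℝ) → Finset (Fin m × Bool → Fin (q ^ 2)) := fun p p' κ =>
    univ.filter (fun ω => ¬ PairOK (cutC C (kap c1 ω)) p p' κ (cc J l) (J : ℝ))
  have hP : ∀ p p' : ℝ, 0 ≤ p → p ≤ p' → ∀ κ, ((P p p' κ).card : ℝ) ≤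
      (Fintype.card (Fin m × Bool → Fin (q ^ 2)) : ℝ) *
        (4 * m * (n + 4 * m) * Real.exp (-((32 * l : ℕ) : ℝ))) := fun p p' hp hpp κ =>
    rand_drift C hq c1 hp hpp κ (cc J l) (32 * l)
  have hsub : univ.filter (fun ω : Fin m × Bool → Fin (q ^ 2) =>
      ¬ GoodI (cutC C (kap c1 ω)) J l b) ⊆
      ((range (n1 J l)).biUnion (fun j => P (pj J l j) (pj J l (j + 1)) (fun _ => 0)) ∪
        (range (n1 J l + 1)).biUnion (fun j => P (pj J l 0) (pj J l j) (fun _ => 0))) ∪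
        P 0 (pj J l (Hn J l)) (kb b) := by
    intro ω hω
    rw [mem_filter] at hω
    by_contra hc
    apply hω.2
    rw [mem_union, mem_union, mem_biUnion, mem_biUnion] at hc
    push Not at hc
    obtain ⟨⟨h1, h2⟩, h3⟩ := hc
    refine ⟨fun j hj => ?_, fun j hj => ?_, ?_⟩
    · have h4 := h1 j (mem_range.2 hj)
      rw [mem_filter, not_and, not_not] at h4
      exact h4 (mem_univ _)
    · have h4 := h2 j (mem_range.2 (by omega))
      rw [mem_filter, not_and, not_not] at h4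
      exact h4 (mem_univ _)
    · rw [mem_filter, not_and, not_not] at h3
      exact h3 (mem_univ _)
  set c : ℝ := (Fintype.card (Fin m × Bool → Fin (q ^ 2)) : ℝ) with hc
  set ε : ℝ := 4 * m * (n + 4 * m) * Real.exp (-((32 * l : ℕ) : ℝ)) with hε
  have h1 := Finset.card_le_card hsub
  have h2 : ((univ.filter (fun ω : Fin m × Bool → Fin (q ^ 2) =>
      ¬ GoodI (cutC C (kap c1 ω)) J l b)).card : ℝ) ≤
      (∑ j ∈ range (n1 J l), ((P (pj J l j) (pj J l (j + 1)) (fun _ => 0)).card : ℝ) +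
        ∑ j ∈ range (n1 J l + 1), ((P (pj J l 0) (pj J l j) (fun _ => 0)).card : ℝ)) +
        ((P 0 (pj J l (Hn J l)) (kb b)).card : ℝ) := by
    have h3 := h1.trans (Finset.card_union_le _ _)
    have h4 := h3.trans (Nat.add_le_add_right (Finset.card_union_le _ _) _)
    have h5 := h4.trans (Nat.add_le_add_right (Nat.add_le_add Finset.card_biUnion_le
      Finset.card_biUnion_le) _)
    exact_mod_cast h5
  refine h2.trans ?_
  have h3 : ∑ j ∈ range (n1 J l), ((P (pj J l j) (pj J l (j + 1)) (fun _ => 0)).card : ℝ) ≤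
      n1 J l * (c * ε) := by
    calc _ ≤ ∑ j ∈ range (n1 J l), c * ε := Finset.sum_le_sum (fun j _ =>
          hP _ _ (pj_pos hJ1 j).le (pj_mono hJ1 (Nat.le_succ j)) _)
      _ = _ := by rw [sum_const, card_range, nsmul_eq_mul]
  have h4 : ∑ j ∈ range (n1 J l + 1), ((P (pj J l 0) (pj J l j) (fun _ => 0)).card : ℝ) ≤
      (n1 J l + 1) * (c * ε) := by
    calc _ ≤ ∑ j ∈ range (n1 J l + 1), c * ε := Finset.sum_le_sum (fun j _ =>
          hP _ _ (pj_pos hJ1 0).le (pj_mono hJ1 (Nat.zero_le j)) _)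
      _ = _ := by rw [sum_const, card_range, nsmul_eq_mul]; push_cast; ring
  have h5 := hP 0 (pj J l (Hn J l)) le_rfl (pj_pos hJ1 _).le (kb b)
  have h6 := numeric hl1 hN hql
  rw [← hε, ← hJ] at h6
  push_cast at h6
  have hc0 : 0 ≤ c := Nat.cast_nonneg _
  have h7 := mul_le_mul_of_nonneg_left h6 hc0
  have h8 : c * ((2 * (n1 J l : ℝ) + 2) * ε) = n1 J l * (c * ε) + (n1 J l + 1) * (c * ε) + c * ε := by
    ring
  rw [h8] at h7
  linarith

end Pool.Agent.LibCC88
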