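import Pool.Agent.LibCC88.Hit

/-!
For every size a short list of cut sets contains, for every instance with a set of active
comparators, a good one that cuts few ports of active comparators.
-/

namespace Pool.Agent.LibCC88

open Pool.Agent.LibCC Pool.Agent.LibCCV Pool.Agent.LibCCS Pool.Agent.LibCC67 Pool.Agent.LibCC89 Finset

variable {n m : ℕ}

open Classical in
/-- Few ports of active comparators are cut, for all but an eighth of the cut sets. -/
theorem markovAct (act : Fin m → Bool) {Q : ℕ} (c1 : Fin Q) :
    ((univ.filter (fun ω : Fin m × Bool → Fin Q =>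
      16 * (univ.filter (fun g => act g = true)).card <
        Q * (univ.filter (fun p : Fin m × Bool => kap c1 ω p = true ∧ act p.1 = true)).card)).card : ℝ)
        ≤ (Fintype.card (Fin m × Bool → Fin Q) : ℝ) / 8 := by
  set A := (univ.filter (fun g => act g = true)).card with hA
  rcases Nat.eq_zero_or_pos A with hm | hm
  · have h1 : univ.filter (fun ω : Fin m × Bool → Fin Q =>
      16 * A < Q * (univ.filter (fun p : Fin m × Bool =>
        kap c1 ω p = true ∧ act p.1 = true)).card) = ∅ := by
      rw [Finset.filter_eq_empty_iff]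
      intro ω _ h
      have h2 : (univ.filter (fun p : Fin m × Bool => kap c1 ω p = true ∧ act p.1 = true)) = ∅ := by
        rw [Finset.filter_eq_empty_iff]
        rintro p _ ⟨-, h3⟩
        rw [hA, Finset.card_eq_zero, Finset.filter_eq_empty_iff] at hm
        exact hm (mem_univ p.1) h3
      rw [h2] at h
      simp at h
    rw [h1]
    simp
    positivity
  · have hQ0 : 0 < Q := lt_of_le_of_lt (Nat.zero_le _) c1.isLt
    have hQ : (0 : ℝ) < Q := by exact_mod_cast hQ0
    set c : ℝ := (Fintype.card (Fin m × Bool → Fin Q) : ℝ) with hc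
    have h1 : ∑ ω : Fin m × Bool → Fin Q,
        ((univ.filter (fun p : Fin m × Bool => kap c1 ω p = true ∧ act p.1 = true)).card : ℝ) =
          2 * A * (c / Q) := by
      simp only [Finset.card_filter]
      push_cast
      rw [Finset.sum_comm]
      have h2 : ∀ p : Fin m × Bool, ∑ ω : Fin m × Bool → Fin Q,
          (if kap c1 ω p = true ∧ act p.1 = true then (1 : ℝ) else 0) =
            if act p.1 = true then c / Q else 0 := by
        intro p
        by_cases hp : act p.1 = true
        · rw [if_pos hp]
          have h3 := sum_cut_exp (F := fun _ => (0 : ℝ)) (i := p) c1 (fun _ _ => rfl) 1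
          simp only [sum_const_zero, mul_zero, zero_add, one_mul] at h3
          rw [hc, ← h3]
          apply Finset.sum_congr rfl
          intro ω _
          simp [kap, hp]
        · simp [hp]
      rw [Finset.sum_congr rfl (fun p _ => h2 p), Fintype.sum_prod_type]
      have h4 : ∀ g : Fin m, ∑ b : Bool, (if act (g, b).1 = true then c / Q else 0) =
          2 * (if act g = true then c / Q else 0) := by
        intro g
        rw [Fintype.sum_bool]
        ring
      rw [Finset.sum_congr rfl (fun g _ => h4 g), ← Finset.mul_sum, ← Finset.sum_filter, sum_const,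
        nsmul_eq_mul, ← hA]
      ring
    set S := univ.filter (fun ω : Fin m × Bool → Fin Q =>
      16 * A < Q * (univ.filter (fun p : Fin m × Bool =>
        kap c1 ω p = true ∧ act p.1 = true)).card) with hS
    have h2 : ∑ ω ∈ S, (16 * A / Q : ℝ) ≤ ∑ ω : Fin m × Bool → Fin Q,
        ((univ.filter (fun p : Fin m × Bool => kap c1 ω p = true ∧ act p.1 = true)).card : ℝ) := by
      refine le_trans (Finset.sum_le_sum (fun ω hω => ?_))
        (Finset.sum_le_sum_of_subset_of_nonneg (Finset.subset_univ S) (fun _ _ _ => by positivity))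
      rw [hS, mem_filter] at hω
      rw [div_le_iff₀ hQ]
      have h3 := hω.2.le
      rw [mul_comm Q] at h3
      exact_mod_cast h3
    rw [h1, sum_const, nsmul_eq_mul] at h2
    have hm' : (0 : ℝ) < A := by exact_mod_cast hm
    have h4 : (S.card : ℝ) * (16 * A / Q) = (S.card : ℝ) * 16 * (A / Q) := by ring
    have h5 : 2 * A * (c / Q) = (2 * c) * (A / Q) := by ring
    rw [h4, h5] at h2
    have h6 := le_of_mul_le_mul_right h2 (by positivity)
    linarith

/-- The number of candidates. -/
abbrev Ra (n m : ℕ) : ℕ := 2 * m * (n + 2 * m) + n + m + 1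

open Classical in
/-- A short list of cut sets with a good one for every instance. -/
theorem good_list_act (n m q : ℕ) (hq : 1 ≤ q) (hqN : q ≤ n + 2 * m + 1) :
    ∃ K : Fin (Ra n m) → Fin m × Bool → Bool,
      ∀ (C : CompCircuit n m) (x : Fin n → Bool) (act : Fin m → Bool), ∃ r,
        (∀ z, GoodI (cutC C (K r)) (Jq (lg (n + 2 * m) m) q) (lg (n + 2 * m) m) (ext x z)) ∧
        q ^ 2 * (univ.filter (fun p : Fin m × Bool => K r p = true ∧ act p.1 = true)).card ≤
          16 * (univ.filter (fun g => act g = true)).card := by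
  have hQ0 : 0 < q ^ 2 := by positivity
  let c1 : Fin (q ^ 2) := ⟨0, hQ0⟩
  have : Nonempty (Fin (q ^ 2)) := ⟨c1⟩
  set l := lg (n + 2 * m) m with hl
  have hl1 : 1 ≤ l := lg_pos _ _
  have hsz : n + 2 * m + 2 * m + 1 ≤ 2 ^ l := size_le (n + 2 * m) m
  let big : (Fin m → Bool) → (Fin m × Bool → Fin (q ^ 2)) → Prop := fun act ω =>
    16 * (univ.filter (fun g => act g = true)).card <
      q ^ 2 * (univ.filter (fun p : Fin m × Bool => kap c1 ω p = true ∧ act p.1 = true)).card
  let bad : (LB n m ⊕ Fin m → Bool) → (Fin m × Bool → Fin (q ^ 2)) → Prop := fun y ω =>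
    ∃ (C : CompCircuit n m) (x : Fin n → Bool) (act : Fin m → Bool),
      Sum.elim (lenc C x) act = y ∧
      (¬ (∀ z, GoodI (cutC C (kap c1 ω)) (Jq l q) l (ext x z)) ∨ big act ω)
  have hbad : ∀ y, 2 * (univ.filter (fun ω => bad y ω)).card ≤
      Fintype.card (Fin m × Bool → Fin (q ^ 2)) := by
    intro y
    by_cases hy : ∃ (C : CompCircuit n m) (x : Fin n → Bool) (act : Fin m → Bool),
        Sum.elim (lenc C x) act = y
    · obtain ⟨C, x, act, rfl⟩ := hy
      have h1 := good_cuts C hq c1 hl1 (by omega) (hqN.trans (by omega)) (ext x false)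
      have h2 := good_cuts C hq c1 hl1 (by omega) (hqN.trans (by omega)) (ext x true)
      have h3 := markovAct act c1
      have hsub : univ.filter (fun ω => bad (Sum.elim (lenc C x) act) ω) ⊆
          (univ.filter (fun ω => ¬ GoodI (cutC C (kap c1 ω)) (Jq l q) l (ext x false)) ∪
          univ.filter (fun ω => ¬ GoodI (cutC C (kap c1 ω)) (Jq l q) l (ext x true))) ∪
          univ.filter (fun ω : Fin m × Bool → Fin (q ^ 2) =>
            16 * (univ.filter (fun g => act g = true)).card <
      q ^ 2 * (univ.filter (fun p : Fin m × Bool => kap c1 ω p = true ∧ act p.1 = true)).card) := by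
        intro ω hω
        rw [mem_filter] at hω
        obtain ⟨-, C', x', act', hC', hb⟩ := hω
        have e1 : lenc C' x' = lenc C x := by
          funext i
          exact congrFun hC' (Sum.inl i)
        have e2 : act' = act := by
          funext i
          exact congrFun hC' (Sum.inr i)
        obtain ⟨rfl, rfl⟩ := lenc_inj e1
        subst e2
        rw [mem_union, mem_union, mem_filter, mem_filter, mem_filter]
        rcases hb with hb | hb
        · left
          rw [not_forall] at hb
          obtain ⟨z, hz⟩ := hb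
          cases z
          · exact Or.inl ⟨mem_univ _, hz⟩
          · exact Or.inr ⟨mem_univ _, hz⟩
        · exact Or.inr ⟨mem_univ _, hb⟩
      have h4 := (Finset.card_le_card hsub).trans ((Finset.card_union_le _ _).trans
        (Nat.add_le_add_right (Finset.card_union_le _ _) _))
      have h5 : ((univ.filter (fun ω => bad (Sum.elim (lenc C x) act) ω)).card : ℝ) ≤
          (Fintype.card (Fin m × Bool → Fin (q ^ 2)) : ℝ) / 8 +
          (Fintype.card (Fin m × Bool → Fin (q ^ 2)) : ℝ) / 8 +
          (Fintype.card (Fin m × Bool → Fin (q ^ 2)) : ℝ) / 8 := by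
        have h4' : ((univ.filter (fun ω => bad (Sum.elim (lenc C x) act) ω)).card : ℝ) ≤
            ((univ.filter (fun ω : Fin m × Bool → Fin (q ^ 2) =>
              ¬ GoodI (cutC C (kap c1 ω)) (Jq l q) l (ext x false))).card : ℝ) +
            ((univ.filter (fun ω : Fin m × Bool → Fin (q ^ 2) =>
              ¬ GoodI (cutC C (kap c1 ω)) (Jq l q) l (ext x true))).card : ℝ) +
            ((univ.filter (fun ω : Fin m × Bool → Fin (q ^ 2) =>
            16 * (univ.filter (fun g => act g = true)).card <
      q ^ 2 * (univ.filter (fun p : Fin m × Bool => kap c1 ω p = true ∧ act p.1 = true)).card)).card :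
              ℝ) := by
          exact_mod_cast h4
        exact h4'.trans (add_le_add (add_le_add h1 h2) h3)
      have h6 : (0 : ℝ) ≤ (Fintype.card (Fin m × Bool → Fin (q ^ 2)) : ℝ) := Nat.cast_nonneg _
      have h7 : (2 * (univ.filter (fun ω => bad (Sum.elim (lenc C x) act) ω)).card : ℝ) ≤
          (Fintype.card (Fin m × Bool → Fin (q ^ 2)) : ℝ) := by linarith
      exact_mod_cast h7
    · have h1 : univ.filter (fun ω => bad y ω) = ∅ := by
        rw [Finset.filter_eq_empty_iff]
        rintro ω _ ⟨C, x, act, h, -⟩
        exact hy ⟨C, x, act, h⟩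
      rw [h1]
      simp
  let inst : DecidableEq (LB n m ⊕ Fin m) := instDecidableEqSum
  obtain ⟨L, hL⟩ := hitting bad hbad (Ra n m) univ (by
    rw [card_univ, Fintype.card_fun, Fintype.card_bool, Fintype.card_sum, card_LB,
      Fintype.card_fin]
    exact Nat.pow_lt_pow_right (by norm_num) (Nat.lt_succ_self _))
  refine ⟨fun r => kap c1 (L r), fun C x act => ?_⟩
  obtain ⟨r, hr⟩ := hL (Sum.elim (lenc C x) act) (mem_univ _)
  refine ⟨r, ?_, ?_⟩
  · by_contra hc
    exact hr ⟨C, x, act, rfl, Or.inl hc⟩
  · by_contra hc
    exact hr ⟨C, x, act, rfl, Or.inr (not_le.1 hc)⟩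

end Pool.Agent.LibCC88
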