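import Pool.Agent.LibCC88.Good

/-!
The master theorem with the drift hypothesis on the instance only.
-/

namespace Pool.Agent.LibCC88

open Pool.Agent.LibCC Pool.Agent.LibCCV Pool.Agent.LibCCS Pool.Agent.LibCC67 Pool.Agent.LibCC89 Finset

variable {n m : ℕ}

/-- For all sizes and all `J` one circuit of depth `c * l ^ c * J` is correct on all good
instances. -/
theorem masterI :
    ∃ c : ℕ, ∀ n m J : ℕ, 1 ≤ J → J ≤ 2 ^ (6 * lg n m) →
      ∃ (D : ℕ) (B : BCircuit (Bit n m) (c * (n + 2 * m + 1) ^ c))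
        (o : Fin (c * (n + 2 * m + 1) ^ c)),
        D ≤ c * lg n m ^ c * J ∧
        ∀ (C : CompCircuit n m) (x : Fin n → Bool), GoodI C J (lg n m) x →
          ∀ (v : Arc n m → Bool), C.IsVal x v → ∀ e : Arc n m,
            B.level (encode C x e) D o = v e := by
  obtain ⟨c, hc1, hc2, hc3⟩ : ∃ c : ℕ, 64 * 2 ^ (6 * 58 + 37) ≤ c ∧ 6 * 58 + 37 ≤ c ∧
      (1600 * (10 * 44 + 1) + 11) * (4 * 58 + 26) ≤ c :=
    ⟨64 * 2 ^ (6 * 58 + 37) + (6 * 58 + 37) + (1600 * (10 * 44 + 1) + 11) * (4 * 58 + 26),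
      by omega, by omega, by omega⟩
  refine ⟨c, fun n m J hJ hJ2 => ?_⟩
  obtain ⟨zt, wt, A, hA, hc⟩ := machine n m J hJ (lg n m) (size_le n m) (lg_pos n m) hJ2
  obtain ⟨B, o, hB⟩ := (sizes 58 n m).circuit hA zt wt (44 * lg n m) (Hn J (lg n m))
  have hN : 1 ≤ n + 2 * m + 1 := by omega
  have hl := lg_pos n m
  have hW : Qw (lg n m) * 2 ^ (3 * Lw 58 (lg n m) + 6) ≤ c * (n + 2 * m + 1) ^ c :=
    (width_le 58 n m).trans (Nat.mul_le_mul hc1 (Nat.pow_le_pow_right hN hc2))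
  obtain ⟨B', hB'⟩ := widen hW B
  refine ⟨(Hn J (lg n m) * (44 * lg n m * (lg n m * (lg n m + 3) + lg n m + 5) + 1) +
      (lg n m * (lg n m + 3) + lg n m + 6)) * (2 * Lw 58 (lg n m) + 6), B',
    Fin.castLE hW o, ?_, fun C x hC v hv e => ?_⟩
  · refine (depth_le 58 44 (lg n m) J hl hJ).trans ?_
    refine Nat.mul_le_mul_right _ (Nat.mul_le_mul hc3 ?_)
    exact Nat.pow_le_pow_right hl (le_trans (by omega) hc2)
  · rw [hB', hB, hc C x hC v hv e]
    cases v e <;> simp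

end Pool.Agent.LibCC88
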