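import Pool.Agent.LibCC88.HitAct
import Pool.Agent.LibCC88.CutEval

/-!
Marks: bits that certify the value of an arc, obtained from all consistent candidates.
-/

namespace Pool.Agent.LibCC88

open Pool.Agent.LibCC Pool.Agent.LibCCV Pool.Agent.LibCCS Pool.Agent.LibCC67 Pool.Agent.LibCC89 Finset

variable {n m : ℕ}

/-- A run whose cut ports read `!r` certifies the values `r`. -/
theorem cut_sound {C : CompCircuit n m} {K : Fin m × Bool → Bool} {x : Fin n → Bool} {r : Bool}
    {w : Arc (n + 2 * m) m → Bool} (hw : (cutC C K).IsVal (ext x (!r)) w) {v : Arc n m → Bool}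
    (hv : C.IsVal x v) : ∀ a, w (up a) = r → v a = r := by
  obtain ⟨ord, hord⟩ := C.acyclic
  have hsrc : ∀ i, w (up (Sum.inl i)) = r → v (Sum.inl i) = r := by
    intro i h
    rw [hv.source]
    have h1 := hw.source (Fin.castAdd (2 * m) i)
    change w (Sum.inl (Fin.castAdd (2 * m) i)) = r at h
    rw [h1] at h
    unfold ext at h
    rw [dif_pos (show ((Fin.castAdd (2 * m) i : Fin (n + 2 * m)) : ℕ) < n from i.isLt)] at h
    exact h
  have key : ∀ k : ℕ, ∀ g, ord g < k → ∀ c, w (Sum.inr (g, c)) = r → v (Sum.inr (g, c)) = r := by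
    intro k
    induction k with
    | zero => intro g hg; omega
    | succ k ih =>
      intro g hg c
      have hin : ∀ b, w ((cutC C K).inp (g, b)) = r → v (C.inp (g, b)) = r := by
        intro b h
        rw [cutC_inp] at h
        by_cases hK : K (g, b) = true
        · rw [if_pos hK, hw.source] at h
          unfold ext at h
          rw [dif_neg (by simp [pv])] at h
          exact absurd h (by cases r <;> simp)
        · rw [if_neg hK] at h
          rcases hb : C.inp (g, b) with i | ⟨a, c'⟩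
          · rw [hb] at h
            exact hsrc i h
          · rw [hb] at h
            exact ih a (by have := hord g b a c' hb; omega) c' h
      have h1 := hin false
      have h2 := hin true
      cases c
      · rw [hw.conj, hv.conj]
        intro h
        revert h1 h2 h
        cases w ((cutC C K).inp (g, false)) <;> cases w ((cutC C K).inp (g, true)) <;>
          cases v (C.inp (g, false)) <;> cases v (C.inp (g, true)) <;> cases r <;> simp
      · rw [hw.disj, hv.disj]
        intro h
        revert h1 h2 h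
        cases w ((cutC C K).inp (g, false)) <;> cases w ((cutC C K).inp (g, true)) <;>
          cases v (C.inp (g, false)) <;> cases v (C.inp (g, true)) <;> cases r <;> simp
  intro a
  rcases a with i | ⟨g, c⟩
  · exact hsrc i
  · exact key (ord g + 1) g (Nat.lt_succ_self _) c

/-- The candidate bits. -/
abbrev CJ (n m : ℕ) : Type := Fin (Ra n m) × (Bool × Arc (n + 2 * m) m)

theorem Ra_le {n m l : ℕ} (h : n + 4 * m + 1 ≤ 2 ^ l) : Ra n m ≤ 2 ^ (2 * l) := by
  calc Ra n m ≤ (n + 4 * m + 1) * (n + 4 * m + 1) := by unfold Ra; nlinarith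
    _ ≤ 2 ^ l * 2 ^ l := Nat.mul_le_mul h h
    _ = 2 ^ (2 * l) := by rw [two_mul, pow_add]

/-- The marks `y (r, a)` are sound and, up to few cuts at active comparators, complete. -/
structure Marks (C : CompCircuit n m) (x : Fin n → Bool) (act : Fin m → Bool) (q : ℕ)
    (y : Bool × Arc n m → Bool) : Prop where
  sound : ∀ v, C.IsVal x v → ∀ r a, y (r, a) = true → v a = r
  complete : ∃ K : Fin m × Bool → Bool,
    q ^ 2 * (univ.filter (fun p : Fin m × Bool => K p = true ∧ act p.1 = true)).card ≤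
      16 * (univ.filter (fun g => act g = true)).card ∧
    ∀ r w, (cutC C K).IsVal (ext x (!r)) w → ∀ a, w (up a) = r → y (r, a) = true

/-- The circuit for one size. -/
theorem unionEval_one (n m q l : ℕ) (hq : 1 ≤ q) (hqN : q ≤ n + 2 * m + 1)
    (hl : n + 4 * m + 1 ≤ 2 ^ l) {W0 D0 : ℕ}
    (B : BCircuit (Bit (n + 2 * m) m) W0) (o : Fin W0)
    (hB : ∀ (C : CompCircuit (n + 2 * m) m) (x : Fin (n + 2 * m) → Bool),
      GoodI C (Jq (lg (n + 2 * m) m) q) (lg (n + 2 * m) m) x →
      ∀ v, C.IsVal x v → ∀ e, B.level (encode C x e) D0 o = v e) :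
    ∃ f : ((LB n m ⊕ Fin m) → Bool) → Bool × Arc n m → Bool,
      Comp (LB n m ⊕ Fin m) (2 * (Fintype.card (LB n m ⊕ Fin m) + Fintype.card (CJ n m) *
          (Fintype.card (Bit (n + 2 * m) m) + Fintype.card (Bit (n + 2 * m) m) +
            (W0 + Fintype.card Unit + Fintype.card Unit))) +
          (Fintype.card (LB n m ⊕ Fin m) + Fintype.card (CJ n m)) +
          Fintype.card (Bool × Arc n m) * 2 ^ (4 * l + 9))
        (0 + 1 + (D0 + 1) + (4 * l + 9 + 1)) f ∧
      ∀ (C : CompCircuit n m) (x : Fin n → Bool) (act : Fin m → Bool),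
        Marks C x act q (f (Sum.elim (lenc C x) act)) := by
  classical
  obtain ⟨K, hK2⟩ := good_list_act n m q hq hqN
  have hcand : ∀ i : CJ n m, Comp (LB n m ⊕ Fin m) (Fintype.card (Bit (n + 2 * m) m) +
      Fintype.card (Bit (n + 2 * m) m) + (W0 + Fintype.card Unit + Fintype.card Unit))
      (0 + 1 + (D0 + 1)) (fun y (_ : Unit) =>
        B.level (fun b => ((encG (K i.1) i.2.1 i.2.2 b).map Sum.inl).eval y) D0 o) := by
    intro i
    have h1 : Comp (Bit (n + 2 * m) m) W0 D0 (fun y (_ : Unit) => B.level y D0 o) :=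
      ⟨B, fun _ => o, fun _ _ => rfl⟩
    have h2 := h1.wait (Nat.le_succ D0)
    have h3 := Comp.gates (α := LB n m ⊕ Fin m)
      (fun b => (encG (K i.1) i.2.1 i.2.2 b).map Sum.inl) 0
    exact h3.comp h2 (Nat.succ_pos _)
  have hpar := (Comp.par hcand).reindex (fun i : CJ n m => ⟨i, ()⟩)
  let cnd : ((LB n m ⊕ Fin m) → Bool) → CJ n m → Bool := fun y i =>
    B.level (fun b => ((encG (K i.1) i.2.1 i.2.2 b).map Sum.inl).eval y) D0 o
  let val : Bool → Fin (Ra n m) → (((LB n m ⊕ Fin m) ⊕ CJ n m) → Bool) → Bool := fun z r y =>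
    validB (K r) (fun p a => Sum.inl (Sum.inl (Sum.inl (p, a))))
      (fun i => Sum.inl (Sum.inl (Sum.inr i))) (fun a => Sum.inr (r, (z, a))) z y
  let F : Bool × Arc n m → (((LB n m ⊕ Fin m) ⊕ CJ n m) → Bool) → Bool := fun c y =>
    decide (∃ r, (val (!c.1) r y && beqB (y (Sum.inr (r, (!c.1, up c.2)))) c.1) = true)
  have hL1 : Fintype.card (Arc n m) ≤ 2 ^ l := by
    rw [card_arc]
    omega
  have hL2 : Fintype.card (Arc (n + 2 * m) m) ≤ 2 ^ (l + 1) := by
    rw [card_arc, pow_succ]
    omega
  have hF : ∀ c, FD (4 * l + 9) (F c) := by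
    intro c
    have h1 : ∀ r, FD (2 * l + 9) (fun y => val (!c.1) r y &&
        beqB (y (Sum.inr (r, (!c.1, up c.2)))) c.1) := fun r =>
      (fd_validB _ _ _ _ hL1 hL2 _).and
        ((FD.beqB (FD.var 0 _) (FD.const 0 _)).mono (by omega))
    have h2 : FD (2 * l + 9 + 2 * l) (F c) :=
      (FD.exists (2 * l) (by simpa using Ra_le hl) _ h1).congr (fun y => by
        simp only [F]
        congr)
    exact h2.mono (by omega)
  have hst := Comp.stage hpar (by omega) hF
  refine ⟨_, hst, fun C x act => ?_⟩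
  set y0 : ((LB n m ⊕ Fin m) ⊕ CJ n m) → Bool := Sum.elim (Sum.elim (lenc C x) act)
    (cnd (Sum.elim (lenc C x) act)) with hy0
  have hval : ∀ (r : Fin (Ra n m)) (z : Bool), val z r y0 = true ↔
      (cutC C (K r)).IsVal (ext x z) (fun a => y0 (Sum.inr (r, (z, a)))) := fun r z =>
    validB_iff _ _ _ _ (fun _ _ => rfl) (fun _ => rfl) z
  refine ⟨fun v hv r a h => ?_, ?_⟩
  · change decide (∃ r', (val (!r) r' y0 && beqB (y0 (Sum.inr (r', (!r, up a)))) r) = true) =
      true at h
    rw [decide_eq_true_iff] at h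
    obtain ⟨r', h⟩ := h
    rw [Bool.and_eq_true, hval, beqB_iff] at h
    exact cut_sound h.1 hv a h.2
  · obtain ⟨r0, hr1, hr2⟩ := hK2 C x act
    refine ⟨K r0, hr2, fun r w hw a h => ?_⟩
    change decide (∃ r', (val (!r) r' y0 && beqB (y0 (Sum.inr (r', (!r, up a)))) r) = true) = true
    rw [decide_eq_true_iff]
    have h1 : (fun a => y0 (Sum.inr (r0, (!r, a)))) = w := by
      funext a
      have h2 := hB (cutC C (K r0)) (ext x (!r)) (hr1 (!r)) w hw a
      rw [← h2]
      change B.level (fun b => ((encG (K r0) (!r) a b).map Sum.inl).eval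
        (Sum.elim (lenc C x) act)) D0 o = _
      congr 1
      funext b
      rw [BGate.eval_map]
      exact encG_eval (K r0) (!r) a C x b
    refine ⟨r0, ?_⟩
    rw [Bool.and_eq_true, hval, beqB_iff, h1]
    exact ⟨hw, (congrFun h1 (up a)).trans h⟩

end Pool.Agent.LibCC88
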